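import Mathlib

set_option autoImplicit false

/-!
# Limits along ultrafilters and a translation invariant mean on bounded sequences
-/

namespace Pool.Agent.TH7.DH

open Filter Topology Finset

/-- bounded sequences -/
def Bdd (a : ℕ → ℝ) : Prop := ∃ B : ℝ, ∀ n, |a n| ≤ B

/-- limit along an ultrafilter -/
noncomputable def ulim (V : Ultrafilter ℕ) (a : ℕ → ℝ) : ℝ := limUnder (V : Filter ℕ) a

lemma ulim_tendsto {V : Ultrafilter ℕ} {a : ℕ → ℝ} (h : Bdd a) :
    Tendsto a V (𝓝 (ulim V a)) := by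
  obtain ⟨B, hB⟩ := h
  have h1 : ∀ n, a n ∈ Set.Icc (-B) B := fun n => abs_le.1 (hB n)
  have h2 : ((V.map a : Ultrafilter ℝ) : Filter ℝ) ≤ 𝓟 (Set.Icc (-B) B) := by
    rw [le_principal_iff]
    exact Filter.mem_map.2 (Filter.mem_of_superset Filter.univ_mem fun n _ => h1 n)
  obtain ⟨x, -, hx⟩ := isCompact_Icc.ultrafilter_le_nhds (V.map a) h2
  have h3 : Tendsto a V (𝓝 x) := hx
  rw [ulim, h3.limUnder_eq]
  exact h3

lemma ulim_eq {V : Ultrafilter ℕ} {a : ℕ → ℝ} {x : ℝ} (h : Tendsto a V (𝓝 x)) :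
    ulim V a = x := h.limUnder_eq

lemma bdd_const (x : ℝ) : Bdd (fun _ => x) := ⟨|x|, fun _ => le_rfl⟩

lemma Bdd.add {a b : ℕ → ℝ} (ha : Bdd a) (hb : Bdd b) : Bdd (fun n => a n + b n) := by
  obtain ⟨A, hA⟩ := ha
  obtain ⟨B, hB⟩ := hb
  exact ⟨A + B, fun n => (abs_add_le _ _).trans (add_le_add (hA n) (hB n))⟩

lemma Bdd.smul {a : ℕ → ℝ} (t : ℝ) (ha : Bdd a) : Bdd (fun n => t * a n) := by
  obtain ⟨A, hA⟩ := ha
  exact ⟨|t| * A, fun n => by rw [abs_mul]; exact mul_le_mul_of_nonneg_left (hA n) (abs_nonneg t)⟩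

lemma Bdd.shift {a : ℕ → ℝ} (r : ℕ) (ha : Bdd a) : Bdd (fun n => a (n + r)) := by
  obtain ⟨A, hA⟩ := ha
  exact ⟨A, fun n => hA _⟩

lemma bdd_sum {ι : Type} (s : Finset ι) (a : ι → ℕ → ℝ) (ha : ∀ i ∈ s, Bdd (a i)) :
    Bdd (fun n => ∑ i ∈ s, a i n) := by
  classical
  induction s using Finset.induction_on with
  | empty => simpa using bdd_const 0
  | insert i s hi ih =>
    have := (ha i (mem_insert_self _ _)).add (ih fun j hj => ha j (mem_insert_of_mem hj))
    simpa [Finset.sum_insert hi] using this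

/-- Cesàro averages -/
noncomputable def ces (a : ℕ → ℝ) (n : ℕ) : ℝ := (∑ c ∈ range (n + 1), a c) / (n + 1)

lemma ces_bdd {a : ℕ → ℝ} {B : ℝ} (h : ∀ n, |a n| ≤ B) (n : ℕ) : |ces a n| ≤ B := by
  rw [ces, abs_div, abs_of_pos (by positivity : (0 : ℝ) < (n : ℝ) + 1), div_le_iff₀ (by positivity)]
  calc |∑ c ∈ range (n + 1), a c| ≤ ∑ c ∈ range (n + 1), |a c| := abs_sum_le_sum_abs _ _
    _ ≤ ∑ _c ∈ range (n + 1), B := sum_le_sum fun c _ => h c
    _ = B * (n + 1) := by simp [mul_comm]

lemma Bdd.ces {a : ℕ → ℝ} (h : Bdd a) : Bdd (ces a) := by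
  obtain ⟨B, hB⟩ := h
  exact ⟨B, ces_bdd hB⟩

/-- a translation invariant mean -/
noncomputable def mean (a : ℕ → ℝ) : ℝ := ulim (hyperfilter ℕ) (ces a)

lemma mean_tendsto {a : ℕ → ℝ} (h : Bdd a) :
    Tendsto (ces a) (hyperfilter ℕ : Ultrafilter ℕ) (𝓝 (mean a)) := ulim_tendsto h.ces

lemma mean_const (x : ℝ) : mean (fun _ => x) = x := by
  refine ulim_eq ?_
  have : ces (fun _ => x) = fun _ => x := by
    funext n
    have hn : (0 : ℝ) < (n : ℝ) + 1 := by positivity
    simp only [ces, sum_const, card_range, nsmul_eq_mul]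
    push_cast
    field_simp
  rw [this]
  exact tendsto_const_nhds

lemma mean_add {a b : ℕ → ℝ} (ha : Bdd a) (hb : Bdd b) :
    mean (fun n => a n + b n) = mean a + mean b := by
  refine ulim_eq ?_
  have : ces (fun n => a n + b n) = fun n => ces a n + ces b n := by
    funext n
    simp only [ces, sum_add_distrib, add_div]
  rw [this]
  exact (mean_tendsto ha).add (mean_tendsto hb)

lemma mean_smul {a : ℕ → ℝ} (t : ℝ) (ha : Bdd a) : mean (fun n => t * a n) = t * mean a := by
  refine ulim_eq ?_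
  have : ces (fun n => t * a n) = fun n => t * ces a n := by
    funext n
    simp only [ces, ← mul_sum, mul_div_assoc]
  rw [this]
  exact (mean_tendsto ha).const_mul t

lemma mean_mono {a b : ℕ → ℝ} (ha : Bdd a) (hb : Bdd b) (h : ∀ n, a n ≤ b n) :
    mean a ≤ mean b := by
  refine le_of_tendsto_of_tendsto (mean_tendsto ha) (mean_tendsto hb) ?_
  refine Filter.Eventually.of_forall fun n => ?_
  simp only [ces]
  exact div_le_div_of_nonneg_right (sum_le_sum fun c _ => h c) (by positivity)

lemma mean_sum {ι : Type} (s : Finset ι) (a : ι → ℕ → ℝ) (ha : ∀ i ∈ s, Bdd (a i)) :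
    mean (fun n => ∑ i ∈ s, a i n) = ∑ i ∈ s, mean (a i) := by
  classical
  induction s using Finset.induction_on with
  | empty => simpa using mean_const 0
  | insert i s hi ih =>
    rw [Finset.sum_insert hi, ← ih fun j hj => ha j (mem_insert_of_mem hj),
      ← mean_add (ha i (mem_insert_self _ _)) (bdd_sum s a fun j hj => ha j (mem_insert_of_mem hj))]
    congr 1
    funext n
    rw [Finset.sum_insert hi]

lemma mean_shift {a : ℕ → ℝ} (r : ℕ) (ha : Bdd a) : mean (fun n => a (n + r)) = mean a := by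
  obtain ⟨B, hB⟩ := ha
  have ha' : Bdd a := ⟨B, hB⟩
  have hB0 : 0 ≤ B := (abs_nonneg _).trans (hB 0)
  refine ulim_eq ?_
  have h1 : Tendsto (fun n => ces (fun n => a (n + r)) n - ces a n)
      (hyperfilter ℕ : Ultrafilter ℕ) (𝓝 0) := by
    have h2 : Tendsto (fun n => ces (fun n => a (n + r)) n - ces a n) atTop (𝓝 0) := by
      have h3 : ∀ n, |ces (fun n => a (n + r)) n - ces a n| ≤ (2 * r * B) * (1 / ((n : ℝ) + 1)) := by
        intro n
        have hn : (0 : ℝ) < (n : ℝ) + 1 := by positivity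
        have e1 : ces (fun n => a (n + r)) n - ces a n
            = (∑ c ∈ range r, (a (c + (n + 1)) - a c)) / (n + 1) := by
          simp only [ces]
          rw [← sub_div]
          congr 1
          have e2 : ∑ c ∈ range (n + 1), a (c + r) = ∑ c ∈ range (r + (n + 1)), a c
              - ∑ c ∈ range r, a c := by
            have e4 : ∑ c ∈ range (r + (n + 1)), a c
                = ∑ c ∈ range r, a c + ∑ c ∈ range (n + 1), a (r + c) :=
              Finset.sum_range_add _ _ _
            have e5 : ∑ c ∈ range (n + 1), a (r + c) = ∑ c ∈ range (n + 1), a (c + r) :=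
              sum_congr rfl fun c _ => by rw [add_comm]
            rw [e4, e5]
            ring
          have e3 : ∑ c ∈ range (r + (n + 1)), a c = ∑ c ∈ range (n + 1), a c
              + ∑ c ∈ range r, a (c + (n + 1)) := by
            have e4 : ∑ c ∈ range ((n + 1) + r), a c
                = ∑ c ∈ range (n + 1), a c + ∑ c ∈ range r, a ((n + 1) + c) :=
              Finset.sum_range_add _ _ _
            rw [add_comm r (n + 1), e4]
            congr 1
            refine sum_congr rfl fun c _ => ?_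
            rw [add_comm]
          rw [e2, e3, sum_sub_distrib]
          ring
        rw [e1, abs_div, abs_of_pos hn, mul_one_div]
        refine div_le_div_of_nonneg_right ?_ hn.le
        calc |∑ c ∈ range r, (a (c + (n + 1)) - a c)|
            ≤ ∑ c ∈ range r, |a (c + (n + 1)) - a c| := abs_sum_le_sum_abs _ _
          _ ≤ ∑ _c ∈ range r, 2 * B := sum_le_sum fun c _ => by
              have h1 := hB (c + (n + 1))
              have h2 := hB c
              have := abs_sub (a (c + (n + 1))) (a c)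
              linarith
          _ = 2 * r * B := by simp; ring
      refine squeeze_zero_norm (a := fun n : ℕ => (2 * r * B) * (1 / ((n : ℝ) + 1))) ?_ ?_
      · intro n
        rw [Real.norm_eq_abs]
        exact h3 n
      · have := (tendsto_one_div_add_atTop_nhds_zero_nat (𝕜 := ℝ)).const_mul (2 * r * B)
        simpa using this
    exact h2.mono_left Nat.hyperfilter_le_atTop
  have h4 := h1.add (mean_tendsto ha')
  simpa using h4

/-- a bounded sequence takes values at most slightly larger than its mean arbitrarily late -/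
lemma exists_le_of_mean {a : ℕ → ℝ} (ha : Bdd a) {s : ℝ} (h : mean a ≤ s) {ε : ℝ} (hε : 0 < ε)
    (r₀ : ℕ) : ∃ r, r₀ ≤ r ∧ a r ≤ s + ε := by
  by_contra hcon
  push Not at hcon
  have h1 : mean (fun _ : ℕ => s + ε) ≤ mean (fun n => a (n + r₀)) :=
    mean_mono (bdd_const _) (ha.shift r₀) fun n => (hcon (n + r₀) (Nat.le_add_left _ _)).le
  rw [mean_const, mean_shift r₀ ha] at h1
  linarith

end Pool.Agent.TH7.DH
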