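import Mathlib
import Pool.Agent.TH7.DH.Mean

set_option autoImplicit false

/-!
# The abstract induction step
-/

namespace Pool.Agent.TH7.DH

open Filter Topology Finset

/-- choice of a sequence whose differences have small `ρ`-averages -/
lemma exists_seq {ρ : ℕ → ℝ} (hρ : Bdd ρ) {ε : ℝ} (hε : 0 < ε) (n : ℕ) :
    ∃ r : ℕ → ℕ, (∀ i j, i < j → j ≤ n → r i < r j) ∧
      ∀ j ≤ n, ∑ i ∈ range j, ρ (r j - r i) ≤ j * (mean ρ + ε) := by
  induction n with
  | zero =>
    refine ⟨fun _ => 0, fun i j hij hj => by omega, fun j hj => ?_⟩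
    obtain rfl : j = 0 := by omega
    simp
  | succ n ih =>
    obtain ⟨r, hr, hs⟩ := ih
    have hb : ∀ i, Bdd (fun x => ρ (x - r i)) := by
      intro i
      obtain ⟨B, hB⟩ := hρ
      exact ⟨B, fun x => hB _⟩
    have hm : mean (fun x => ∑ i ∈ range (n + 1), ρ (x - r i)) = (n + 1) * mean ρ := by
      rw [mean_sum (range (n + 1)) (fun i x => ρ (x - r i)) fun i _ => hb i]
      have : ∀ i ∈ range (n + 1), mean (fun x => ρ (x - r i)) = mean ρ := by
        intro i _
        rw [← mean_shift (r i) (hb i)]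
        congr 1
        funext x
        rw [Nat.add_sub_cancel]
      rw [sum_congr rfl this]
      simp
    have hε' : 0 < (n + 1) * ε := by positivity
    obtain ⟨x, hx0, hx⟩ := exists_le_of_mean
      (bdd_sum (range (n + 1)) (fun i x => ρ (x - r i)) fun i _ => hb i) hm.le hε' (r n + 1)
    refine ⟨fun i => if i = n + 1 then x else r i, ?_, ?_⟩
    · intro i j hij hj
      rcases Nat.lt_or_ge j (n + 1) with h | h
      · have h1 : j ≠ n + 1 := by omega
        have h2 : i ≠ n + 1 := by omega
        simp only [h1, h2, if_false]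
        exact hr i j hij (by omega)
      · have h1 : j = n + 1 := by omega
        have h2 : i ≠ n + 1 := by omega
        simp only [h1, h2, if_true, if_false]
        rcases Nat.lt_or_ge i n with h3 | h3
        · have := hr i n h3 le_rfl
          omega
        · have : i = n := by omega
          rw [this]; omega
    · intro j hj
      rcases Nat.lt_or_ge j (n + 1) with h | h
      · have h1 : j ≠ n + 1 := by omega
        have : ∑ i ∈ range j, ρ ((if j = n + 1 then x else r j) - (if i = n + 1 then x else r i))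
            = ∑ i ∈ range j, ρ (r j - r i) := by
          refine sum_congr rfl fun i hi => ?_
          have h2 : i ≠ n + 1 := by
            have := mem_range.1 hi
            omega
          simp only [h1, h2, if_false]
        rw [this]
        exact hs j (by omega)
      · have h1 : j = n + 1 := by omega
        subst h1
        have : ∑ i ∈ range (n + 1), ρ ((if n + 1 = n + 1 then x else r (n + 1))
            - (if i = n + 1 then x else r i))
            = ∑ i ∈ range (n + 1), ρ (x - r i) := by
          refine sum_congr rfl fun i hi => ?_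
          have h2 : i ≠ n + 1 := by
            have := mem_range.1 hi
            omega
          simp only [h2, if_true, if_false]
        rw [this]
        refine hx.trans ?_
        push_cast
        linarith

/-- The quadratic form of the vector `(1/(n+1)) ∑ w (y + r i) - c' w 0 - t p`. -/
def PSD (κ : ℕ → ℝ) (G : ℕ → ℕ → ℝ) (v : ℝ) : Prop :=
  ∀ (n : ℕ) (r : ℕ → ℕ), (∀ i j, i < j → j ≤ n → r i < r j) → ∀ (y : ℕ) (t c' : ℝ),
    0 ≤ t ^ 2 * v + c' ^ 2 * v
      + ((n + 1) * v + 2 * ∑ j ∈ range (n + 1), ∑ i ∈ range j, G (r j - r i) (y + r i))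
          / ((n : ℝ) + 1) ^ 2
      - 2 * c' / (n + 1) * ∑ i ∈ range (n + 1), G (y + r i) 0
      + 2 * t * c' * κ 0 - 2 * t / (n + 1) * ∑ i ∈ range (n + 1), κ (y + r i)

theorem abs_step {κ : ℕ → ℝ} {G : ℕ → ℕ → ℝ} {v c : ℝ} (hv : 0 ≤ v) (hc0 : 0 ≤ c) (hc1 : c ≤ 1)
    (hκ : Bdd κ) (hG : ∀ a, Bdd (G a)) (hG0 : Bdd (fun a => G a 0)) (hpsd : PSD κ G v)
    (hm : ∀ a, 1 ≤ a → mean (G a) ≤ c * G a 0 + (1 - c) * v) :
    |mean κ - c / 2 * κ 0| ≤ (1 - c / 2) * v := by
  set ρ : ℕ → ℝ := fun a => G a 0 with hρ
  set R : ℝ := mean ρ with hR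
  set X : ℝ := mean κ - c / 2 * κ 0 with hX
  have key : ∀ t : ℝ, 2 * t * X ≤ t ^ 2 * v + (1 - c / 2) ^ 2 * v := by
    intro t
    -- the bound with error terms
    have main : ∀ (n : ℕ) (ε : ℝ), 0 < ε →
        2 * t * X ≤ t ^ 2 * v + (1 - c / 2) ^ 2 * v + c * ε + (v + c * |R|) / (n + 1) := by
      intro n ε hε
      have hn : (0 : ℝ) < (n : ℝ) + 1 := by positivity
      obtain ⟨r, hr, hs⟩ := exists_seq hG0 hε n
      -- pointwise inequality
      have h1 : ∀ y : ℕ, 2 * t / (n + 1) * ∑ i ∈ range (n + 1), κ (y + r i)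
          + 2 * (c / 2) / (n + 1) * ∑ i ∈ range (n + 1), ρ (y + r i)
          ≤ (t ^ 2 * v + (c / 2) ^ 2 * v + 2 * t * (c / 2) * κ 0 + (n + 1) * v / ((n : ℝ) + 1) ^ 2)
            + 2 / ((n : ℝ) + 1) ^ 2 *
              ∑ j ∈ range (n + 1), ∑ i ∈ range j, G (r j - r i) (y + r i) := by
        intro y
        have := hpsd n r hr y t (c / 2)
        have e : ((n + 1) * v + 2 * ∑ j ∈ range (n + 1), ∑ i ∈ range j, G (r j - r i) (y + r i))
          / ((n : ℝ) + 1) ^ 2 = (n + 1) * v / ((n : ℝ) + 1) ^ 2 + 2 / ((n : ℝ) + 1) ^ 2 *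
              ∑ j ∈ range (n + 1), ∑ i ∈ range j, G (r j - r i) (y + r i) := by
          rw [add_div]; ring
        rw [e] at this
        linarith
      -- boundedness
      have bκ : ∀ i, Bdd (fun y => κ (y + r i)) := fun i => hκ.shift _
      have bρ : ∀ i, Bdd (fun y => ρ (y + r i)) := fun i => hG0.shift _
      have bG : ∀ j i, Bdd (fun y => G (r j - r i) (y + r i)) := fun j i => (hG _).shift _
      have bS1 : Bdd (fun y => ∑ i ∈ range (n + 1), κ (y + r i)) :=
        bdd_sum _ (fun i y => κ (y + r i)) fun i _ => bκ i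
      have bS2 : Bdd (fun y => ∑ i ∈ range (n + 1), ρ (y + r i)) :=
        bdd_sum _ (fun i y => ρ (y + r i)) fun i _ => bρ i
      have bS3' : ∀ j, Bdd (fun y => ∑ i ∈ range j, G (r j - r i) (y + r i)) := fun j =>
        bdd_sum _ (fun i y => G (r j - r i) (y + r i)) fun i _ => bG j i
      have bS3 : Bdd (fun y => ∑ j ∈ range (n + 1), ∑ i ∈ range j, G (r j - r i) (y + r i)) :=
        bdd_sum _ (fun j y => ∑ i ∈ range j, G (r j - r i) (y + r i)) fun j _ => bS3' j
      -- take means
      have h2 := mean_mono ((bS1.smul (2 * t / (n + 1))).add (bS2.smul (2 * (c / 2) / (n + 1))))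
        ((bdd_const _).add (bS3.smul (2 / ((n : ℝ) + 1) ^ 2))) h1
      rw [mean_add (bS1.smul _) (bS2.smul _), mean_smul _ bS1, mean_smul _ bS2,
        mean_add (bdd_const _) (bS3.smul _), mean_const, mean_smul _ bS3,
        mean_sum _ (fun i y => κ (y + r i)) fun i _ => bκ i,
        mean_sum _ (fun i y => ρ (y + r i)) fun i _ => bρ i,
        mean_sum _ (fun j y => ∑ i ∈ range j, G (r j - r i) (y + r i)) fun j _ => bS3' j] at h2
      have e1 : ∑ i ∈ range (n + 1), mean (fun y => κ (y + r i)) = (n + 1) * mean κ := by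
        rw [sum_congr rfl fun i _ => mean_shift (r i) hκ]
        simp
      have e2 : ∑ i ∈ range (n + 1), mean (fun y => ρ (y + r i)) = (n + 1) * R := by
        rw [sum_congr rfl fun i _ => mean_shift (r i) hG0]
        simp [hR]
      have e3 : ∑ j ∈ range (n + 1), mean (fun y => ∑ i ∈ range j, G (r j - r i) (y + r i))
          ≤ ((n : ℝ) * (n + 1) / 2) * (c * (R + ε) + (1 - c) * v) := by
        have e4 : ∀ j ∈ range (n + 1), mean (fun y => ∑ i ∈ range j, G (r j - r i) (y + r i))
            ≤ (j : ℝ) * (c * (R + ε) + (1 - c) * v) := by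
          intro j hj
          have hj' : j ≤ n := by
            have := mem_range.1 hj
            omega
          rw [mean_sum _ (fun i y => G (r j - r i) (y + r i)) fun i _ => bG j i]
          have e5 : ∀ i ∈ range j, mean (fun y => G (r j - r i) (y + r i))
              ≤ c * ρ (r j - r i) + (1 - c) * v := by
            intro i hi
            rw [mean_shift (r i) (hG _)]
            have := hr i j (mem_range.1 hi) hj'
            exact hm _ (by omega)
          refine (sum_le_sum e5).trans ?_
          rw [sum_add_distrib, ← mul_sum, sum_const, card_range, nsmul_eq_mul]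
          have := hs j hj'
          have h6 : c * ∑ i ∈ range j, ρ (r j - r i) ≤ c * (j * (R + ε)) :=
            mul_le_mul_of_nonneg_left this hc0
          linarith
        refine (sum_le_sum e4).trans ?_
        rw [← sum_mul]
        have : ∑ j ∈ range (n + 1), (j : ℝ) = (n : ℝ) * (n + 1) / 2 := by
          have h7 := Finset.sum_range_id_mul_two (n + 1)
          have h8 : ((∑ i ∈ range (n + 1), i : ℕ) : ℝ) * 2 = ((n + 1 : ℕ) : ℝ) * ((n : ℕ) : ℝ) := by
            have h9 : (∑ i ∈ range (n + 1), i) * 2 = (n + 1) * n := by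
              rw [h7, Nat.add_sub_cancel]
            exact_mod_cast h9
          push_cast at h8
          linarith
        rw [this]
      rw [e1, e2] at h2
      have h3 : 2 / ((n : ℝ) + 1) ^ 2 *
          ∑ j ∈ range (n + 1), mean (fun y => ∑ i ∈ range j, G (r j - r i) (y + r i))
          ≤ (n / (n + 1)) * (c * (R + ε) + (1 - c) * v) := by
        refine (mul_le_mul_of_nonneg_left e3 (by positivity)).trans (le_of_eq ?_)
        field_simp
      have e6 : 2 * t / ((n : ℝ) + 1) * ((n + 1) * mean κ) = 2 * t * mean κ := by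
        field_simp
      have e7 : 2 * (c / 2) / ((n : ℝ) + 1) * ((n + 1) * R) = c * R := by
        field_simp
      have e8 : ((n : ℝ) + 1) * v / ((n : ℝ) + 1) ^ 2 = v / (n + 1) := by
        field_simp
      rw [e6, e7, e8] at h2
      have e9 : (n / ((n : ℝ) + 1)) * (c * (R + ε) + (1 - c) * v)
          = (c * (R + ε) + (1 - c) * v) - (c * (R + ε) + (1 - c) * v) / (n + 1) := by
        field_simp
        ring
      rw [e9] at h3
      have e10 : -(c * |R|) / (n + 1) ≤ (c * (R + ε) + (1 - c) * v) / ((n : ℝ) + 1) := by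
        refine div_le_div_of_nonneg_right ?_ hn.le
        have h11 : -|R| ≤ R := neg_abs_le R
        have h12 : 0 ≤ (1 - c) * v := mul_nonneg (by linarith) hv
        have h13 : c * (-|R|) ≤ c * R := mul_le_mul_of_nonneg_left h11 hc0
        have h14 : 0 ≤ c * ε := mul_nonneg hc0 hε.le
        nlinarith
      have e11 : (v + c * |R|) / ((n : ℝ) + 1) = v / (n + 1) - (-(c * |R|) / (n + 1)) := by
        ring
      rw [e11, hX]
      nlinarith
    -- let `n → ∞`, `ε → 0`
    refine le_of_forall_pos_le_add fun η hη => ?_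
    have hpos : 0 ≤ v + c * |R| := by positivity
    obtain ⟨n, hn⟩ := exists_nat_gt ((v + c * |R|) / (η / 2))
    have h1 : (v + c * |R|) / (n + 1) ≤ η / 2 := by
      rw [div_lt_iff₀ (by positivity)] at hn
      rw [div_le_iff₀ (by positivity)]
      nlinarith
    have h2 := main n (η / 2) (by positivity)
    have h3 : c * (η / 2) ≤ η / 2 := by nlinarith
    linarith
  have hpos : 0 < 1 - c / 2 := by linarith
  rw [abs_le]
  constructor
  · have h1 := key (-(1 - c / 2))
    have h2 : (1 - c / 2) * (-X) ≤ (1 - c / 2) * ((1 - c / 2) * v) := by nlinarith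
    have h3 := le_of_mul_le_mul_left h2 hpos
    linarith
  · have h1 := key (1 - c / 2)
    have h2 : (1 - c / 2) * X ≤ (1 - c / 2) * ((1 - c / 2) * v) := by nlinarith
    exact le_of_mul_le_mul_left h2 hpos

end Pool.Agent.TH7.DH
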