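import Mathlib
import Pool.Agent.H720R3.Conc

set_option autoImplicit false

/-!
# Planting a pattern at a random place does not change averages much

`Pool.Agent.H720R3.card_trace` (number of sets with prescribed trace) is from the starting files.
-/

namespace Pool.Agent.TH7.DH

open Finset Pool.Agent.H720R3

variable {E : Type} [Fintype E] [DecidableEq E] {J : Type} [Fintype J]

/-- sum of a function over planted sets -/
lemma sum_plant (F : Finset E → ℝ) (C P : Finset E) (hP : P ⊆ C) :
    ∑ A : Finset E, F ((A \ C) ∪ P)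
      = 2 ^ C.card * ∑ A : Finset E, if A ∩ C = P then F A else 0 := by
  -- partition by the trace of `A` on `C`
  have h1 : ∑ A : Finset E, F ((A \ C) ∪ P)
      = ∑ Q ∈ C.powerset, ∑ A ∈ univ.filter (fun A : Finset E => A ∩ C = Q), F ((A \ C) ∪ P) := by
    rw [Finset.sum_fiberwise_of_maps_to (g := fun A : Finset E => A ∩ C)]
    intro A _
    exact mem_powerset.2 inter_subset_right
  have h2 : ∀ Q ∈ C.powerset, ∑ A ∈ univ.filter (fun A : Finset E => A ∩ C = Q), F ((A \ C) ∪ P)
      = ∑ A ∈ univ.filter (fun A : Finset E => A ∩ C = P), F A := by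
    intro Q hQ
    rw [mem_powerset] at hQ
    refine Finset.sum_bij' (fun A _ => (A \ C) ∪ P) (fun A _ => (A \ C) ∪ Q) ?_ ?_ ?_ ?_ ?_
    · intro A hA
      rw [mem_filter] at hA ⊢
      refine ⟨mem_univ _, ?_⟩
      ext x
      simp only [mem_inter, mem_union, mem_sdiff]
      constructor
      · rintro ⟨h | h, h'⟩
        · exact absurd h' h.2
        · exact h
      · intro h
        exact ⟨Or.inr h, hP h⟩
    · intro A hA
      rw [mem_filter] at hA ⊢
      refine ⟨mem_univ _, ?_⟩
      ext x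
      simp only [mem_inter, mem_union, mem_sdiff]
      constructor
      · rintro ⟨h | h, h'⟩
        · exact absurd h' h.2
        · exact h
      · intro h
        exact ⟨Or.inr h, hQ h⟩
    · intro A hA
      rw [mem_filter] at hA
      rw [← hA.2]
      ext x
      simp only [mem_inter, mem_union, mem_sdiff]
      by_cases hx : x ∈ C
      · simp [hx]
      · have : x ∉ P := fun h => hx (hP h)
        simp [hx, this]
    · intro A hA
      rw [mem_filter] at hA
      rw [← hA.2]
      ext x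
      simp only [mem_inter, mem_union, mem_sdiff]
      by_cases hx : x ∈ C
      · simp [hx]
      · have : x ∉ Q := fun h => hx (hQ h)
        simp [hx, this]
    · intro A hA
      rfl
  rw [h1, sum_congr rfl h2, sum_const, card_powerset, nsmul_eq_mul, ← sum_filter]
  push_cast
  rfl

/-- Planting patterns on disjoint blocks of the same size `c`, at a random block. -/
lemma conc_abs {c : ℕ} (C P : J → Finset E) (hP : ∀ j, P j ⊆ C j)
    (hc : ∀ j, (C j).card = c) (hdis : ∀ j k, j ≠ k → Disjoint (C j) (C k))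
    (F : Finset E → ℝ) (hF : ∀ A, |F A| ≤ 1) :
    |∑ j, ∑ A : Finset E, F ((A \ C j) ∪ P j) - Fintype.card J * ∑ A : Finset E, F A|
      ≤ 2 ^ Fintype.card E * Real.sqrt (Fintype.card J * 2 ^ c) := by
  classical
  set m : ℝ := (Fintype.card J : ℝ) with hm
  have hm0 : 0 ≤ m := Nat.cast_nonneg _
  set W : ℝ := 2 ^ Fintype.card E with hW
  have hW0 : 0 < W := by positivity
  set X : Finset E → ℝ := fun A => ∑ j, if A ∩ C j = P j then (1 : ℝ) else 0 with hX
  -- first moment
  have hone : ∀ j, ∑ A : Finset E, (if A ∩ C j = P j then (1 : ℝ) else 0) = W / 2 ^ c := by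
    intro j
    rw [Finset.sum_boole]
    have := card_trace (C j) (P j) (hP j)
    rw [hc j] at this
    rw [eq_div_iff (by positivity)]
    exact this
  have h1 : ∑ A : Finset E, X A = m * (W / 2 ^ c) := by
    rw [hX]
    simp only
    rw [sum_comm, sum_congr rfl fun j _ => hone j, sum_const, card_univ, nsmul_eq_mul]
  -- second moment
  have h2 : ∑ A : Finset E, (X A) ^ 2 ≤ m * (W / 2 ^ c) + m ^ 2 * (W / (2 ^ c * 2 ^ c)) := by
    have e1 : ∀ A : Finset E, (X A) ^ 2
        = ∑ j, ∑ k, if (A ∩ C j = P j ∧ A ∩ C k = P k) then (1 : ℝ) else 0 := by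
      intro A
      rw [hX]
      simp only
      rw [sq, Finset.sum_mul_sum]
      refine sum_congr rfl fun j _ => sum_congr rfl fun k _ => ?_
      by_cases h : A ∩ C j = P j <;> by_cases h' : A ∩ C k = P k <;> simp [h, h']
    have e2 : ∀ j k : J, ∑ A : Finset E,
        (if (A ∩ C j = P j ∧ A ∩ C k = P k) then (1 : ℝ) else 0)
        ≤ (if j = k then W / 2 ^ c else 0) + W / (2 ^ c * 2 ^ c) := by
      intro j k
      have hpos : (0 : ℝ) ≤ W / (2 ^ c * 2 ^ c) := by positivity
      by_cases hjk : j = k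
      · subst hjk
        rw [if_pos rfl]
        have : ∑ A : Finset E, (if (A ∩ C j = P j ∧ A ∩ C j = P j) then (1 : ℝ) else 0)
            = W / 2 ^ c := by
          rw [← hone j]
          refine sum_congr rfl fun A _ => ?_
          simp
        rw [this]
        linarith
      · rw [if_neg hjk, zero_add, Finset.sum_boole]
        have hd := hdis j k hjk
        have := card_trace (C j ∪ C k) (P j ∪ P k) (union_subset_union (hP j) (hP k))
        rw [card_union_of_disjoint hd, hc j, hc k, pow_add] at this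
        rw [le_div_iff₀ (by positivity), hW, ← this]
        refine mul_le_mul_of_nonneg_right ?_ (by positivity)
        have hsub : (univ.filter (fun A : Finset E => A ∩ C j = P j ∧ A ∩ C k = P k)) ⊆
            (univ.filter (fun A : Finset E => A ∩ (C j ∪ C k) = P j ∪ P k)) := by
          intro A hA
          rw [mem_filter] at hA ⊢
          refine ⟨mem_univ _, ?_⟩
          rw [inter_union_distrib_left, hA.2.1, hA.2.2]
        exact_mod_cast card_le_card hsub
    calc ∑ A : Finset E, (X A) ^ 2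
        = ∑ A : Finset E, ∑ j, ∑ k, (if (A ∩ C j = P j ∧ A ∩ C k = P k) then (1 : ℝ) else 0) :=
          sum_congr rfl fun A _ => e1 A
      _ = ∑ j, ∑ k, ∑ A : Finset E, (if (A ∩ C j = P j ∧ A ∩ C k = P k) then (1 : ℝ) else 0) := by
          rw [sum_comm]
          refine sum_congr rfl fun j _ => ?_
          rw [sum_comm]
      _ ≤ ∑ j : J, ∑ k : J, ((if j = k then W / 2 ^ c else 0) + W / (2 ^ c * 2 ^ c)) :=
          sum_le_sum fun j _ => sum_le_sum fun k _ => e2 j k
      _ = m * (W / 2 ^ c) + m ^ 2 * (W / (2 ^ c * 2 ^ c)) := by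
          simp only [sum_add_distrib, sum_const, card_univ, nsmul_eq_mul, Finset.sum_ite_eq,
            mem_univ, if_true, ← hm]
          ring
  -- the sum of the squares of the deviations
  have h3 : ∑ A : Finset E, (2 ^ c * X A - m) ^ 2 ≤ W * (m * 2 ^ c) := by
    have e : ∀ A : Finset E, (2 ^ c * X A - m) ^ 2
        = (2 ^ c * 2 ^ c) * (X A) ^ 2 - (2 * 2 ^ c * m) * X A + m ^ 2 := fun A => by ring
    rw [sum_congr rfl fun A _ => e A, sum_add_distrib, sum_sub_distrib, ← mul_sum, ← mul_sum, h1]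
    have e2 : ∑ _A : Finset E, m ^ 2 = m ^ 2 * W := by
      simp [hW, mul_comm]
    rw [e2]
    have e3 : (2 ^ c * 2 ^ c : ℝ) * ∑ A : Finset E, (X A) ^ 2
        ≤ (2 ^ c * 2 ^ c) * (m * (W / 2 ^ c) + m ^ 2 * (W / (2 ^ c * 2 ^ c))) :=
      mul_le_mul_of_nonneg_left h2 (by positivity)
    have e4 : (2 ^ c * 2 ^ c : ℝ) * (m * (W / 2 ^ c) + m ^ 2 * (W / (2 ^ c * 2 ^ c)))
        = m * W * 2 ^ c + m ^ 2 * W := by
      field_simp
    have e5 : (2 * 2 ^ c * m : ℝ) * (m * (W / 2 ^ c)) = 2 * m ^ 2 * W := by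
      field_simp
    rw [e4] at e3
    rw [e5]
    linarith
  -- rewrite the planted sums
  have h4 : ∑ j, ∑ A : Finset E, F ((A \ C j) ∪ P j) = ∑ A : Finset E, F A * (2 ^ c * X A) := by
    have e : ∀ j, ∑ A : Finset E, F ((A \ C j) ∪ P j)
        = ∑ A : Finset E, F A * (2 ^ c * if A ∩ C j = P j then (1 : ℝ) else 0) := by
      intro j
      rw [sum_plant F (C j) (P j) (hP j), hc j, mul_sum]
      refine sum_congr rfl fun A _ => ?_
      split_ifs <;> ring
    rw [sum_congr rfl fun j _ => e j, sum_comm]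
    refine sum_congr rfl fun A _ => ?_
    rw [← mul_sum, ← mul_sum]
  have h5 : ∑ j, ∑ A : Finset E, F ((A \ C j) ∪ P j) - m * ∑ A : Finset E, F A
      = ∑ A : Finset E, F A * (2 ^ c * X A - m) := by
    rw [h4, mul_sum, ← sum_sub_distrib]
    refine sum_congr rfl fun A _ => ?_
    ring
  rw [h5]
  have h6 : |∑ A : Finset E, F A * (2 ^ c * X A - m)| ^ 2 ≤ W * (W * (m * 2 ^ c)) := by
    rw [sq_abs]
    calc (∑ A : Finset E, F A * (2 ^ c * X A - m)) ^ 2
        ≤ (∑ A : Finset E, (F A) ^ 2) * ∑ A : Finset E, (2 ^ c * X A - m) ^ 2 :=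
          Finset.sum_mul_sq_le_sq_mul_sq _ _ _
      _ ≤ W * (W * (m * 2 ^ c)) := by
          refine mul_le_mul ?_ h3 (sum_nonneg fun _ _ => sq_nonneg _) hW0.le
          calc ∑ A : Finset E, (F A) ^ 2 ≤ ∑ _A : Finset E, (1 : ℝ) :=
                sum_le_sum fun A _ => by
                  rw [← sq_abs]
                  have := hF A
                  have h0 := abs_nonneg (F A)
                  nlinarith
            _ = W := by simp [hW]
  have h7 : (2 ^ Fintype.card E * Real.sqrt (m * 2 ^ c)) ^ 2 = W * (W * (m * 2 ^ c)) := by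
    rw [mul_pow, Real.sq_sqrt (by positivity)]
    ring
  rw [← hW] at h7
  have h8 : 0 ≤ W * Real.sqrt (m * 2 ^ c) := by positivity
  refine le_of_sq_le_sq ?_ h8
  rw [h7]
  exact h6
where
  le_of_sq_le_sq {a b : ℝ} (h : a ^ 2 ≤ b ^ 2) (hb : 0 ≤ b) : a ≤ b := by
    exact le_of_sq_le_sq' h hb
  le_of_sq_le_sq' {a b : ℝ} (h : a ^ 2 ≤ b ^ 2) (hb : 0 ≤ b) : a ≤ b := by
    nlinarith [abs_le_abs_of_sq_le_sq h]
  abs_le_abs_of_sq_le_sq {a b : ℝ} (h : a ^ 2 ≤ b ^ 2) : |a| ≤ |b| := by
    exact sq_le_sq.1 h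

end Pool.Agent.TH7.DH
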