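import Mathlib
import Pool.Agent.TH7.DH.Conc

set_option autoImplicit false

/-!
# The planted kernel
-/

namespace Pool.Agent.TH7.DH

open Finset

/-- average -/
noncomputable def av {X : Type} [Fintype X] (f : X → ℝ) : ℝ := (∑ x, f x) / Fintype.card X

lemma av_equiv {X Y : Type} [Fintype X] [Fintype Y] (e : X ≃ Y) (f : Y → ℝ) :
    av (fun x => f (e x)) = av f := by
  unfold av
  rw [Equiv.sum_comp e f, Fintype.card_congr e]

lemma av_abs_le {X : Type} [Fintype X] {f : X → ℝ} {B : ℝ} (hB : 0 ≤ B) (h : ∀ x, |f x| ≤ B) :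
    |av f| ≤ B := by
  unfold av
  rcases Nat.eq_zero_or_pos (Fintype.card X) with h0 | h0
  · rw [h0]
    simpa using hB
  · have h1 : (0 : ℝ) < Fintype.card X := by exact_mod_cast h0
    rw [abs_div, abs_of_pos h1, div_le_iff₀ h1]
    calc |∑ x, f x| ≤ ∑ x, |f x| := abs_sum_le_sum_abs _ _
      _ ≤ ∑ _x : X, B := sum_le_sum fun x _ => h x
      _ = B * Fintype.card X := by simp [mul_comm]

lemma av_sub {X : Type} [Fintype X] (f g : X → ℝ) : av f - av g = av (fun x => f x - g x) := by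
  unfold av
  rw [sum_sub_distrib, sub_div]

lemma av_add {X : Type} [Fintype X] (f g : X → ℝ) : av (fun x => f x + g x) = av f + av g := by
  unfold av
  rw [sum_add_distrib, add_div]

lemma av_smul {X : Type} [Fintype X] (t : ℝ) (f : X → ℝ) : av (fun x => t * f x) = t * av f := by
  unfold av
  rw [← mul_sum, mul_div_assoc]

lemma av_nonneg {X : Type} [Fintype X] {f : X → ℝ} (h : ∀ x, 0 ≤ f x) : 0 ≤ av f :=
  div_nonneg (sum_nonneg fun x _ => h x) (Nat.cast_nonneg _)

lemma av_sum {X I : Type} [Fintype X] (s : Finset I) (f : I → X → ℝ) :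
    av (fun x => ∑ i ∈ s, f i x) = ∑ i ∈ s, av (f i) := by
  unfold av
  rw [sum_comm, sum_div]

variable {d : ℕ}

open Classical in
/-- The set `A` overwritten on the cells with all coordinates in the range of `φ` by the
pattern `P`. -/
noncomputable def ow {N : ℕ} {ι : Type} (φ : ι ↪ Fin N) (P : (Fin d → ι) → Prop)
    (A : Finset (Fin d → Fin N)) : Finset (Fin d → Fin N) :=
  univ.filter (fun c => (∃ e : Fin d → ι, (fun t => φ (e t)) = c ∧ P e) ∨
    ((¬ ∃ e : Fin d → ι, (fun t => φ (e t)) = c) ∧ c ∈ A))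

lemma mem_ow {N : ℕ} {ι : Type} (φ : ι ↪ Fin N) (P : (Fin d → ι) → Prop)
    (A : Finset (Fin d → Fin N)) (c : Fin d → Fin N) :
    c ∈ ow φ P A ↔ (∃ e : Fin d → ι, (fun t => φ (e t)) = c ∧ P e) ∨
    ((¬ ∃ e : Fin d → ι, (fun t => φ (e t)) = c) ∧ c ∈ A) := by
  unfold ow
  simp

open Classical in
/-- The planted kernel of two functions. -/
noncomputable def KN (N : ℕ) (h₁ h₂ : Finset (Fin d → Fin N) → ℝ) (ι : Type) [Fintype ι]
    (P Q : (Fin d → ι) → Prop) : ℝ :=
  av (fun φ : ι ↪ Fin N => av (fun A => h₁ (ow φ P A) * h₂ (ow φ Q A)))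

lemma KN_bdd {N : ℕ} {h₁ h₂ : Finset (Fin d → Fin N) → ℝ} (b₁ : ∀ A, |h₁ A| ≤ 1)
    (b₂ : ∀ A, |h₂ A| ≤ 1) (ι : Type) [Fintype ι] (P Q : (Fin d → ι) → Prop) :
    |KN N h₁ h₂ ι P Q| ≤ 1 := by
  classical
  unfold KN
  refine av_abs_le zero_le_one fun φ => av_abs_le zero_le_one fun A => ?_
  rw [abs_mul]
  exact mul_le_one₀ (b₁ _) (abs_nonneg _) (b₂ _)

lemma ow_equiv {N : ℕ} {ι ι' : Type} (e : ι ≃ ι') (φ : ι ↪ Fin N) (P : (Fin d → ι') → Prop)
    (A : Finset (Fin d → Fin N)) :
    ow φ (fun c => P (fun t => e (c t))) A = ow (e.symm.toEmbedding.trans φ) P A := by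
  ext c
  rw [mem_ow, mem_ow]
  have h1 : (∃ g : Fin d → ι, (fun t => φ (g t)) = c ∧ P (fun t => e (g t))) ↔
      ∃ g : Fin d → ι', (fun t => (e.symm.toEmbedding.trans φ) (g t)) = c ∧ P g := by
    constructor
    · rintro ⟨g, hg, hP⟩
      refine ⟨fun t => e (g t), ?_, hP⟩
      rw [← hg]
      funext t
      simp
    · rintro ⟨g, hg, hP⟩
      refine ⟨fun t => e.symm (g t), ?_, ?_⟩
      · rw [← hg]
        funext t
        simp
      · simpa using hP
  have h2 : (∃ g : Fin d → ι, (fun t => φ (g t)) = c) ↔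
      ∃ g : Fin d → ι', (fun t => (e.symm.toEmbedding.trans φ) (g t)) = c := by
    constructor
    · rintro ⟨g, hg⟩
      refine ⟨fun t => e (g t), ?_⟩
      rw [← hg]
      funext t
      simp
    · rintro ⟨g, hg⟩
      refine ⟨fun t => e.symm (g t), ?_⟩
      rw [← hg]
      funext t
      simp
  rw [h1, h2]

lemma KN_equiv {N : ℕ} {h₁ h₂ : Finset (Fin d → Fin N) → ℝ} {ι ι' : Type} [Fintype ι] [Fintype ι']
    (e : ι ≃ ι') (P Q : (Fin d → ι') → Prop) :
    KN N h₁ h₂ ι (fun c => P (fun t => e (c t))) (fun c => Q (fun t => e (c t)))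
      = KN N h₁ h₂ ι' P Q := by
  classical
  unfold KN
  rw [← av_equiv (Equiv.embeddingCongr e (Equiv.refl (Fin N)))
    (fun φ : ι' ↪ Fin N => av (fun A => h₁ (ow φ P A) * h₂ (ow φ Q A)))]
  congr 1
  funext φ
  congr 1
  funext A
  rw [ow_equiv, ow_equiv]
  rfl

/-- the cells over `φ` and `j` which involve `j` -/
noncomputable def newCells {N : ℕ} {ι : Type} [Fintype ι] (φ' : Option ι ↪ Fin N) :
    Finset (Fin d → Fin N) :=
  (univ.filter (fun e : Fin d → Option ι => ∃ t, e t = none)).map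
    ⟨fun e t => φ' (e t), fun _ _ h => funext fun t => φ'.injective (congrFun h t)⟩

open Classical in
noncomputable def newPat {N : ℕ} {ι : Type} [Fintype ι] (φ' : Option ι ↪ Fin N)
    (P : (Fin d → Option ι) → Prop) : Finset (Fin d → Fin N) :=
  (univ.filter (fun e : Fin d → Option ι => (∃ t, e t = none) ∧ P e)).map
    ⟨fun e t => φ' (e t), fun _ _ h => funext fun t => φ'.injective (congrFun h t)⟩

lemma mem_newCells {N : ℕ} {ι : Type} [Fintype ι] (φ' : Option ι ↪ Fin N) (c : Fin d → Fin N) :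
    c ∈ newCells φ' ↔ ∃ e : Fin d → Option ι, (∃ t, e t = none) ∧ (fun t => φ' (e t)) = c := by
  unfold newCells
  simp only [mem_map, mem_filter, mem_univ, true_and]
  exact Iff.rfl

lemma mem_newPat {N : ℕ} {ι : Type} [Fintype ι] (φ' : Option ι ↪ Fin N)
    (P : (Fin d → Option ι) → Prop) (c : Fin d → Fin N) :
    c ∈ newPat φ' P ↔ ∃ e : Fin d → Option ι, ((∃ t, e t = none) ∧ P e) ∧
      (fun t => φ' (e t)) = c := by
  unfold newPat
  simp only [mem_map, mem_filter, mem_univ, true_and]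
  exact Iff.rfl

lemma newPat_sub {N : ℕ} {ι : Type} [Fintype ι] (φ' : Option ι ↪ Fin N)
    (P : (Fin d → Option ι) → Prop) : newPat φ' P ⊆ newCells φ' := by
  intro c hc
  rw [mem_newPat] at hc
  rw [mem_newCells]
  obtain ⟨e, ⟨h1, -⟩, h3⟩ := hc
  exact ⟨e, h1, h3⟩

lemma newPat_congr {N : ℕ} {ι : Type} [Fintype ι] (φ' : Option ι ↪ Fin N)
    {P Q : (Fin d → Option ι) → Prop} (h : ∀ e, (∃ t, e t = none) → (P e ↔ Q e)) :
    newPat φ' P = newPat φ' Q := by
  ext c
  rw [mem_newPat, mem_newPat]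
  constructor
  · rintro ⟨e, ⟨h1, h2⟩, h3⟩
    exact ⟨e, ⟨h1, (h e h1).1 h2⟩, h3⟩
  · rintro ⟨e, ⟨h1, h2⟩, h3⟩
    exact ⟨e, ⟨h1, (h e h1).2 h2⟩, h3⟩

lemma card_newCells {N : ℕ} {ι : Type} [Fintype ι] (φ' : Option ι ↪ Fin N) :
    (newCells φ' : Finset (Fin d → Fin N)).card
      = (univ.filter (fun e : Fin d → Option ι => ∃ t, e t = none)).card := by
  unfold newCells
  rw [card_map]

lemma ow_option {N : ℕ} {ι : Type} [Fintype ι] (φ' : Option ι ↪ Fin N)
    (P : (Fin d → Option ι) → Prop) (A : Finset (Fin d → Fin N)) :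
    ow φ' P A = ow (Function.Embedding.some.trans φ') (fun e => P (fun t => some (e t)))
      ((A \ newCells φ') ∪ newPat φ' P) := by
  ext c
  rw [mem_ow, mem_ow, mem_union, mem_sdiff]
  have hinj : ∀ g g' : Fin d → Option ι, (fun t => φ' (g t)) = (fun t => φ' (g' t)) → g = g' :=
    fun g g' h => funext fun t => φ'.injective (congrFun h t)
  by_cases hg : ∃ g : Fin d → Option ι, (fun t => φ' (g t)) = c
  · obtain ⟨g, hg⟩ := hg
    have hL : (∃ e : Fin d → Option ι, (fun t => φ' (e t)) = c ∧ P e) ↔ P g := by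
      constructor
      · rintro ⟨e, he, hP⟩
        have := hinj e g (he.trans hg.symm)
        rwa [this] at hP
      · intro hP
        exact ⟨g, hg, hP⟩
    have hL2 : ¬ ¬ ∃ e : Fin d → Option ι, (fun t => φ' (e t)) = c := not_not.2 ⟨g, hg⟩
    by_cases hn : ∃ t, g t = none
    · -- new cell
      have h1 : ¬ ∃ e : Fin d → ι, (fun t => (Function.Embedding.some.trans φ') (e t)) = c := by
        rintro ⟨e, he⟩
        obtain ⟨t, ht⟩ := hn
        have h2 : (fun t => φ' (some (e t))) = c := he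
        have h3 := hinj (fun t => some (e t)) g (h2.trans hg.symm)
        have h4 := congrFun h3 t
        rw [ht] at h4
        exact absurd h4 (Option.some_ne_none _)
      have h2 : ¬ ∃ e : Fin d → ι, (fun t => (Function.Embedding.some.trans φ') (e t)) = c ∧
          P (fun t => some (e t)) := fun ⟨e, he, _⟩ => h1 ⟨e, he⟩
      have h3 : c ∈ newCells φ' := (mem_newCells φ' c).2 ⟨g, hn, hg⟩
      have h4 : c ∈ newPat φ' P ↔ P g := by
        rw [mem_newPat]
        constructor
        · rintro ⟨e, ⟨-, hP⟩, he⟩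
          have := hinj e g (he.trans hg.symm)
          rwa [this] at hP
        · intro hP
          exact ⟨g, ⟨hn, hP⟩, hg⟩
      rw [hL, h4]
      tauto
    · -- old cell
      push Not at hn
      have hs : ∀ t, ∃ x, g t = some x := fun t => Option.ne_none_iff_exists'.1 (hn t)
      choose e he using hs
      have hge : g = fun t => some (e t) := funext he
      have h1 : (fun t => (Function.Embedding.some.trans φ') (e t)) = c := by
        rw [← hg]
        funext t
        rw [he t]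
        rfl
      have h2 : (∃ e : Fin d → ι, (fun t => (Function.Embedding.some.trans φ') (e t)) = c ∧
          P (fun t => some (e t))) ↔ P g := by
        constructor
        · rintro ⟨e', he', hP⟩
          have h5 : (fun t => φ' (some (e' t))) = c := he'
          have := hinj (fun t => some (e' t)) g (h5.trans hg.symm)
          rwa [this] at hP
        · intro hP
          refine ⟨e, h1, ?_⟩
          rwa [← hge]
      have h3 : ∃ e : Fin d → ι, (fun t => (Function.Embedding.some.trans φ') (e t)) = c := ⟨e, h1⟩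
      rw [hL, h2]
      tauto
  · have h1 : ¬ ∃ e : Fin d → ι, (fun t => (Function.Embedding.some.trans φ') (e t)) = c := by
      rintro ⟨e, he⟩
      exact hg ⟨fun t => some (e t), he⟩
    have h2 : c ∉ newCells φ' := by
      rw [mem_newCells]
      rintro ⟨e, -, he⟩
      exact hg ⟨e, he⟩
    have h3 : c ∉ newPat φ' P := fun h => h2 (newPat_sub φ' P h)
    have h4 : ¬ ∃ e : Fin d → Option ι, (fun t => φ' (e t)) = c ∧ P e :=
      fun ⟨e, he, _⟩ => hg ⟨e, he⟩
    have h5 : ¬ ∃ e : Fin d → ι, (fun t => (Function.Embedding.some.trans φ') (e t)) = c ∧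
          P (fun t => some (e t)) := fun ⟨e, he, _⟩ => h1 ⟨e, he⟩
    tauto

lemma av_sigma_close {X : Type} [Fintype X] {Y : X → Type} [∀ x, Fintype (Y x)] {m : ℕ}
    (hm : 0 < m) (hY : ∀ x, Fintype.card (Y x) = m) (f : (Σ x, Y x) → ℝ) (g : X → ℝ) {δ : ℝ}
    (hδ : 0 ≤ δ) (h : ∀ x, |(∑ y, f ⟨x, y⟩) - m * g x| ≤ m * δ) : |av f - av g| ≤ δ := by
  have hm' : (0 : ℝ) < m := by exact_mod_cast hm
  have h1 : av f = av (fun x => (∑ y, f ⟨x, y⟩) / m) := by
    unfold av
    rw [Fintype.sum_sigma, Fintype.card_sigma, sum_congr rfl fun x _ => hY x, sum_const,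
      ← sum_div, div_div, smul_eq_mul]
    push_cast
    rw [mul_comm (m : ℝ), card_univ]
  rw [h1, av_sub]
  refine av_abs_le hδ fun x => ?_
  have h2 := h x
  have h3 : (∑ y, f ⟨x, y⟩) / m - g x = ((∑ y, f ⟨x, y⟩) - m * g x) / m := by
    field_simp
  rw [h3, abs_div, abs_of_pos hm', div_le_iff₀ hm']
  linarith

/-- adding one index on whose cells the two patterns agree changes little -/
theorem KN_step {N : ℕ} {h₁ h₂ : Finset (Fin d → Fin N) → ℝ} (b₁ : ∀ A, |h₁ A| ≤ 1)
    (b₂ : ∀ A, |h₂ A| ≤ 1) {ι : Type} [Fintype ι] (hN : Fintype.card ι < N)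
    (P Q : (Fin d → Option ι) → Prop) (hPQ : ∀ e, (∃ t, e t = none) → (P e ↔ Q e)) :
    |KN N h₁ h₂ (Option ι) P Q
      - KN N h₁ h₂ ι (fun e => P (fun t => some (e t))) (fun e => Q (fun t => some (e t)))|
      ≤ Real.sqrt (2 ^ (univ.filter (fun e : Fin d → Option ι => ∃ t, e t = none)).card /
          ((N - Fintype.card ι : ℕ) : ℝ)) := by
  classical
  set M := (univ.filter (fun e : Fin d → Option ι => ∃ t, e t = none)).card with hM
  set m := N - Fintype.card ι with hm
  have hm0 : 0 < m := by omega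
  have hm' : (0 : ℝ) < m := by exact_mod_cast hm0
  set E := (2 : ℝ) ^ Fintype.card (Fin d → Fin N) with hE
  have hE0 : 0 < E := by positivity
  have hcardA : ((Fintype.card (Finset (Fin d → Fin N)) : ℕ) : ℝ) = E := by
    rw [Fintype.card_finset]
    push_cast
    rfl
  -- the function of the base set for given `φ`
  set F : (ι ↪ Fin N) → Finset (Fin d → Fin N) → ℝ := fun φ B =>
    h₁ (ow φ (fun e => P (fun t => some (e t))) B) * h₂ (ow φ (fun e => Q (fun t => some (e t))) B)
    with hF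
  have hF1 : ∀ φ B, |F φ B| ≤ 1 := by
    intro φ B
    rw [hF]
    simp only
    rw [abs_mul]
    exact mul_le_one₀ (b₁ _) (abs_nonneg _) (b₂ _)
  have e1 : KN N h₁ h₂ (Option ι) P Q
      = av (fun x : (Σ φ : ι ↪ Fin N, ↥(Set.range φ)ᶜ) =>
          av (fun A => F x.1 ((A \ newCells (x.1.optionElim x.2 x.2.2))
            ∪ newPat (x.1.optionElim x.2 x.2.2) P))) := by
    unfold KN
    rw [← av_equiv (Function.Embedding.optionEmbeddingEquiv ι (Fin N)).symm]
    congr 1
    funext x
    congr 1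
    funext A
    have hs : Function.Embedding.some.trans (x.1.optionElim x.2 x.2.2) = x.1 := by
      ext i
      rfl
    rw [hF]
    simp only
    rw [ow_option, ow_option]
    have h3 : (Function.Embedding.optionEmbeddingEquiv ι (Fin N)).symm x
        = x.1.optionElim x.2 x.2.2 := rfl
    rw [h3, hs, newPat_congr _ hPQ]
  have e2 : KN N h₁ h₂ ι (fun e => P (fun t => some (e t))) (fun e => Q (fun t => some (e t)))
      = av (fun φ : ι ↪ Fin N => av (fun A => F φ A)) := rfl
  rw [e1, e2]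
  have hcard : ∀ φ : ι ↪ Fin N, Fintype.card ↥(Set.range φ)ᶜ = m := by
    intro φ
    rw [Fintype.card_compl_set, Fintype.card_fin, hm]
    congr 1
    exact Set.card_range_of_injective φ.injective
  refine av_sigma_close hm0 hcard _ _ (Real.sqrt_nonneg _) fun φ => ?_
  -- apply the concentration lemma
  have hc := conc_abs (J := ↥(Set.range φ)ᶜ)
    (fun j => newCells (φ.optionElim j j.2) : ↥(Set.range φ)ᶜ → Finset (Fin d → Fin N))
    (fun j => newPat (φ.optionElim j j.2) P) (fun j => newPat_sub _ _) (c := M)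
    (fun j => card_newCells _) ?_ (F φ) (hF1 φ)
  · rw [hcard φ] at hc
    have h4 : ∑ y : ↥(Set.range φ)ᶜ, av (fun A => F φ ((A \ newCells (φ.optionElim y y.2))
            ∪ newPat (φ.optionElim y y.2) P)) - m * av (fun A => F φ A)
        = (∑ y : ↥(Set.range φ)ᶜ, ∑ A, F φ ((A \ newCells (φ.optionElim y y.2))
            ∪ newPat (φ.optionElim y y.2) P) - m * ∑ A, F φ A) / E := by
      unfold av
      rw [hcardA, ← sum_div]
      ring
    rw [h4, abs_div, abs_of_pos hE0, div_le_iff₀ hE0]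
    refine hc.trans (le_of_eq ?_)
    have h5 : (m : ℝ) * Real.sqrt (2 ^ M / m) = Real.sqrt (m * 2 ^ M) := by
      rw [← Real.sqrt_sq hm'.le, ← Real.sqrt_mul (by positivity)]
      rw [Real.sqrt_sq hm'.le]
      congr 1
      field_simp
    rw [h5]
    ring
  · -- disjointness
    intro j k hjk
    rw [Finset.disjoint_left]
    intro c hcj hck
    rw [mem_newCells] at hcj hck
    obtain ⟨e, ⟨t, ht⟩, he⟩ := hcj
    obtain ⟨e', -, he'⟩ := hck
    have h6 : c t = j := by
      rw [← he]
      simp only [ht]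
      rfl
    have h7 : c t = (φ.optionElim k k.2) (e' t) := by
      rw [← he']
    rw [h6] at h7
    rcases h8 : e' t with _ | x
    · rw [h8] at h7
      have h9 : (φ.optionElim (k : Fin N) k.2) none = k := rfl
      rw [h9] at h7
      exact hjk (Subtype.ext h7)
    · rw [h8] at h7
      have h9 : (φ.optionElim (k : Fin N) k.2) (some x) = φ x := rfl
      rw [h9] at h7
      exact j.2 ⟨x, h7.symm⟩

end Pool.Agent.TH7.DH
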