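import Mathlib
import Pool.Agent.TH7.DH.Ker
import Pool.Agent.TH7.DH.Abs

set_option autoImplicit false

/-!
# The limit kernel
-/

namespace Pool.Agent.TH7.DH

open Finset Filter Topology

/-- Two bounded functions on the subsets of `[N]^d` for every `N`, and a nonprincipal
ultrafilter. -/
structure Sys (d : ℕ) where
  V : Ultrafilter ℕ
  hV : (V : Filter ℕ) ≤ atTop
  h₁ : (N : ℕ) → Finset (Fin d → Fin N) → ℝ
  h₂ : (N : ℕ) → Finset (Fin d → Fin N) → ℝ
  b₁ : ∀ N A, |h₁ N A| ≤ 1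
  b₂ : ∀ N A, |h₂ N A| ≤ 1

variable {d : ℕ} (S : Sys d)

/-- the limit kernel -/
noncomputable def Sys.K (ι : Type) [Fintype ι] (P Q : (Fin d → ι) → Prop) : ℝ :=
  ulim S.V (fun N => KN N (S.h₁ N) (S.h₂ N) ι P Q)

lemma Sys.bddKN (ι : Type) [Fintype ι] (P Q : (Fin d → ι) → Prop) :
    Bdd (fun N => KN N (S.h₁ N) (S.h₂ N) ι P Q) :=
  ⟨1, fun N => KN_bdd (S.b₁ N) (S.b₂ N) ι P Q⟩

lemma Sys.tendsto (ι : Type) [Fintype ι] (P Q : (Fin d → ι) → Prop) :
    Tendsto (fun N => KN N (S.h₁ N) (S.h₂ N) ι P Q) S.V (𝓝 (S.K ι P Q)) :=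
  ulim_tendsto (S.bddKN ι P Q)

lemma Sys.K_abs (ι : Type) [Fintype ι] (P Q : (Fin d → ι) → Prop) : |S.K ι P Q| ≤ 1 := by
  refine le_of_tendsto (S.tendsto ι P Q).abs (Eventually.of_forall fun N => ?_)
  exact KN_bdd (S.b₁ N) (S.b₂ N) ι P Q

lemma Sys.K_equiv {ι ι' : Type} [Fintype ι] [Fintype ι'] (e : ι ≃ ι')
    (P Q : (Fin d → ι') → Prop) :
    S.K ι (fun c => P (fun t => e (c t))) (fun c => Q (fun t => e (c t))) = S.K ι' P Q := by
  unfold Sys.K
  congr 1
  funext N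
  exact KN_equiv e P Q

lemma Sys.K_congr {ι : Type} [Fintype ι] {P Q P' Q' : (Fin d → ι) → Prop}
    (hP : ∀ c, P c ↔ P' c) (hQ : ∀ c, Q c ↔ Q' c) : S.K ι P Q = S.K ι P' Q' := by
  have h1 : P = P' := funext fun c => propext (hP c)
  have h2 : Q = Q' := funext fun c => propext (hQ c)
  rw [h1, h2]

lemma Sys.K_step {ι : Type} [Fintype ι] (P Q : (Fin d → Option ι) → Prop)
    (hPQ : ∀ e, (∃ t, e t = none) → (P e ↔ Q e)) :
    S.K (Option ι) P Q
      = S.K ι (fun e => P (fun t => some (e t))) (fun e => Q (fun t => some (e t))) := by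
  classical
  set M := (univ.filter (fun e : Fin d → Option ι => ∃ t, e t = none)).card with hM
  have h1 := (S.tendsto (Option ι) P Q).sub
    (S.tendsto ι (fun e => P (fun t => some (e t))) (fun e => Q (fun t => some (e t))))
  have h2 : Tendsto (fun N : ℕ => Real.sqrt (2 ^ M / ((N - Fintype.card ι : ℕ) : ℝ))) atTop
      (𝓝 0) := by
    have h3 : Tendsto (fun N : ℕ => ((N - Fintype.card ι : ℕ) : ℝ)) atTop atTop :=
      tendsto_natCast_atTop_atTop.comp (tendsto_sub_atTop_nat _)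
    have h4 : Tendsto (fun N : ℕ => (2 : ℝ) ^ M / ((N - Fintype.card ι : ℕ) : ℝ)) atTop (𝓝 0) :=
      h3.const_div_atTop _
    have h5 := (Real.continuous_sqrt.tendsto 0).comp h4
    rw [Real.sqrt_zero] at h5
    exact h5
  have h3 : Tendsto (fun N => KN N (S.h₁ N) (S.h₂ N) (Option ι) P Q
      - KN N (S.h₁ N) (S.h₂ N) ι (fun e => P (fun t => some (e t)))
        (fun e => Q (fun t => some (e t)))) S.V (𝓝 0) := by
    refine squeeze_zero_norm' ?_ (h2.mono_left S.hV)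
    have h4 : ∀ᶠ N in (S.V : Filter ℕ), Fintype.card ι < N :=
      S.hV (eventually_gt_atTop (Fintype.card ι))
    filter_upwards [h4] with N hN
    rw [Real.norm_eq_abs]
    exact KN_step (S.b₁ N) (S.b₂ N) hN P Q hPQ
  have := tendsto_nhds_unique h1 h3
  linarith

/-- the kernel depends only on the part of the patterns over the indices involved in the
difference -/
theorem Sys.K_local {ι' : Type} [Fintype ι'] (n : ℕ) : ∀ (ι : Type) [Fintype ι],
    Fintype.card ι = n → ∀ (g : ι' ↪ ι) (P Q : (Fin d → ι) → Prop),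
    (∀ c : Fin d → ι, (∃ t, c t ∉ Set.range g) → (P c ↔ Q c)) →
    S.K ι P Q = S.K ι' (fun c => P (fun t => g (c t))) (fun c => Q (fun t => g (c t))) := by
  classical
  induction n with
  | zero =>
    intro ι _ hn g P Q hPQ
    have h1 : Function.Surjective g := by
      intro x
      have : IsEmpty ι := Fintype.card_eq_zero_iff.1 hn
      exact this.elim x
    exact (S.K_equiv (Equiv.ofBijective g ⟨g.injective, h1⟩) P Q).symm
  | succ n ih =>
    intro ι _ hn g P Q hPQ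
    by_cases h1 : Function.Surjective g
    · exact (S.K_equiv (Equiv.ofBijective g ⟨g.injective, h1⟩) P Q).symm
    · unfold Function.Surjective at h1
      push Not at h1
      obtain ⟨i, hi⟩ := h1
      have hi' : i ∉ Set.range g := by
        rintro ⟨x, hx⟩
        exact hi x hx
      have hcard : Fintype.card {b : ι // b ≠ i} = n := by
        rw [Fintype.card_subtype_compl, hn]
        simp
      have h2 := S.K_equiv (Equiv.optionSubtypeNe i) P Q
      rw [← h2]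
      rw [S.K_step]
      · have h3 := ih {b : ι // b ≠ i} hcard
          ⟨fun x => ⟨g x, hi x⟩, fun x y hxy => g.injective (congrArg Subtype.val hxy)⟩
          (fun e => P (fun t => (Equiv.optionSubtypeNe i) (some (e t))))
          (fun e => Q (fun t => (Equiv.optionSubtypeNe i) (some (e t)))) ?_
        · rw [h3]
          rfl
        · rintro c ⟨t, ht⟩
          refine hPQ _ ⟨t, ?_⟩
          rintro ⟨x, hx⟩
          refine ht ⟨x, ?_⟩
          apply Subtype.ext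
          exact hx
      · rintro e ⟨t, ht⟩
        refine hPQ _ ⟨t, ?_⟩
        rw [ht]
        exact hi'

theorem Sys.K_loc {ι ι' : Type} [Fintype ι] [Fintype ι'] (g : ι' ↪ ι) (P Q : (Fin d → ι) → Prop)
    (h : ∀ c : Fin d → ι, (∃ t, c t ∉ Set.range g) → (P c ↔ Q c)) :
    S.K ι P Q = S.K ι' (fun c => P (fun t => g (c t))) (fun c => Q (fun t => g (c t))) :=
  S.K_local (Fintype.card ι) ι rfl g P Q h

/-- the value of the kernel at two equal patterns -/
noncomputable def Sys.v : ℝ := S.K Empty (fun _ => True) (fun _ => True)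

lemma Sys.K_same (ι : Type) [Fintype ι] (hd : 1 ≤ d) (P Q : (Fin d → ι) → Prop)
    (h : ∀ c, P c ↔ Q c) : S.K ι P Q = S.v := by
  rw [S.K_loc (ι' := Empty) ⟨Empty.elim, fun x => x.elim⟩ P Q fun c _ => h c]
  refine S.K_congr ?_ ?_ <;>
  · intro c
    exact (c ⟨0, hd⟩).elim

/-- average over embeddings and sets -/
noncomputable def av2 {N : ℕ} {ι : Type} [Fintype (ι ↪ Fin N)]
    (f : (ι ↪ Fin N) → Finset (Fin d → Fin N) → ℝ) : ℝ := av (fun φ => av (fun A => f φ A))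

lemma KN_psd {N : ℕ} (h : Finset (Fin d → Fin N) → ℝ) (ι : Type) [Fintype ι]
    (p w₀ : (Fin d → ι) → Prop) (w : ℕ → (Fin d → ι) → Prop) (n : ℕ) (t c' : ℝ) :
    0 ≤ t ^ 2 * KN N h h ι p p + c' ^ 2 * KN N h h ι w₀ w₀
      + (∑ i ∈ range (n + 1), KN N h h ι (w i) (w i)
        + 2 * ∑ j ∈ range (n + 1), ∑ i ∈ range j, KN N h h ι (w i) (w j)) / ((n : ℝ) + 1) ^ 2
      - 2 * c' / (n + 1) * ∑ i ∈ range (n + 1), KN N h h ι w₀ (w i)
      + 2 * t * c' * KN N h h ι p w₀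
      - 2 * t / (n + 1) * ∑ i ∈ range (n + 1), KN N h h ι p (w i) := by
  classical
  -- the square
  have hsq : ∀ (a : ℕ → ℝ) (m : ℕ), (∑ i ∈ range m, a i) ^ 2
      = ∑ i ∈ range m, a i * a i + 2 * ∑ j ∈ range m, ∑ i ∈ range j, a i * a j := by
    intro a m
    induction m with
    | zero => simp
    | succ m ih =>
      rw [sum_range_succ, sum_range_succ (fun i => a i * a i),
        sum_range_succ (fun j => ∑ i ∈ range j, a i * a j), add_sq, ih, ← sum_mul]
      ring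
  have h0 : 0 ≤ av (fun φ : ι ↪ Fin N => av (fun A : Finset (Fin d → Fin N) =>
      ((∑ i ∈ range (n + 1), h (ow φ (w i) A)) / (n + 1) - c' * h (ow φ w₀ A)
        - t * h (ow φ p A)) ^ 2)) :=
    av_nonneg fun φ => av_nonneg fun A => sq_nonneg _
  have h1 : ∀ (φ : ι ↪ Fin N) (A : Finset (Fin d → Fin N)),
      ((∑ i ∈ range (n + 1), h (ow φ (w i) A)) / (n + 1) - c' * h (ow φ w₀ A)
        - t * h (ow φ p A)) ^ 2
      = t ^ 2 * (h (ow φ p A) * h (ow φ p A)) + (c' ^ 2 * (h (ow φ w₀ A) * h (ow φ w₀ A))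
        + (1 / ((n : ℝ) + 1) ^ 2 * (∑ i ∈ range (n + 1), h (ow φ (w i) A) * h (ow φ (w i) A))
        + (2 / ((n : ℝ) + 1) ^ 2 * (∑ j ∈ range (n + 1), ∑ i ∈ range j,
            h (ow φ (w i) A) * h (ow φ (w j) A))
        + ((-(2 * c' / (n + 1))) * (∑ i ∈ range (n + 1), h (ow φ w₀ A) * h (ow φ (w i) A))
        + (2 * t * c' * (h (ow φ p A) * h (ow φ w₀ A))
        + (-(2 * t / (n + 1))) * (∑ i ∈ range (n + 1), h (ow φ p A) * h (ow φ (w i) A))))))) := by
    intro φ A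
    have e1 := hsq (fun i => h (ow φ (w i) A)) (n + 1)
    rw [← mul_sum, ← mul_sum]
    generalize (n : ℝ) + 1 = x
    generalize (∑ i ∈ range (n + 1), h (ow φ (w i) A) * h (ow φ (w i) A)) = s1 at *
    generalize (∑ j ∈ range (n + 1), ∑ i ∈ range j, h (ow φ (w i) A) * h (ow φ (w j) A)) = s2 at *
    generalize (∑ i ∈ range (n + 1), h (ow φ (w i) A)) = s3 at *
    generalize h (ow φ p A) = u at *
    generalize h (ow φ w₀ A) = w at *
    have e2 : (s3 / x - c' * w - t * u) ^ 2 = s3 ^ 2 * (x⁻¹) ^ 2 + c' ^ 2 * (w * w)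
        + t ^ 2 * (u * u) - 2 * c' / x * (w * s3) - 2 * t / x * (u * s3) + 2 * t * c' * (u * w) := by
      ring
    rw [e2, e1]
    ring
  have h2 := h0
  simp only [h1] at h2
  simp only [av_add, av_smul, av_sum] at h2
  have e3 : ∀ P Q : (Fin d → ι) → Prop,
      av (fun φ : ι ↪ Fin N => av (fun A => h (ow φ P A) * h (ow φ Q A))) = KN N h h ι P Q :=
    fun P Q => rfl
  simp only [e3] at h2
  refine h2.trans (le_of_eq ?_)
  ring

/-- positivity of the limit kernel -/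
theorem Sys.K_psd (hS : S.h₁ = S.h₂) (ι : Type) [Fintype ι]
    (p w₀ : (Fin d → ι) → Prop) (w : ℕ → (Fin d → ι) → Prop) (n : ℕ) (t c' : ℝ) :
    0 ≤ t ^ 2 * S.K ι p p + c' ^ 2 * S.K ι w₀ w₀
      + (∑ i ∈ range (n + 1), S.K ι (w i) (w i)
        + 2 * ∑ j ∈ range (n + 1), ∑ i ∈ range j, S.K ι (w i) (w j)) / ((n : ℝ) + 1) ^ 2
      - 2 * c' / (n + 1) * ∑ i ∈ range (n + 1), S.K ι w₀ (w i)
      + 2 * t * c' * S.K ι p w₀
      - 2 * t / (n + 1) * ∑ i ∈ range (n + 1), S.K ι p (w i) := by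
  have T := fun P Q => S.tendsto ι P Q
  refine ge_of_tendsto' (f := fun N => t ^ 2 * KN N (S.h₁ N) (S.h₂ N) ι p p
      + c' ^ 2 * KN N (S.h₁ N) (S.h₂ N) ι w₀ w₀
      + (∑ i ∈ range (n + 1), KN N (S.h₁ N) (S.h₂ N) ι (w i) (w i)
        + 2 * ∑ j ∈ range (n + 1), ∑ i ∈ range j, KN N (S.h₁ N) (S.h₂ N) ι (w i) (w j))
          / ((n : ℝ) + 1) ^ 2
      - 2 * c' / (n + 1) * ∑ i ∈ range (n + 1), KN N (S.h₁ N) (S.h₂ N) ι w₀ (w i)
      + 2 * t * c' * KN N (S.h₁ N) (S.h₂ N) ι p w₀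
      - 2 * t / (n + 1) * ∑ i ∈ range (n + 1), KN N (S.h₁ N) (S.h₂ N) ι p (w i))
    (b := 0) (x := (S.V : Filter ℕ)) ?_ ?_
  · refine Tendsto.sub (Tendsto.add (Tendsto.sub (Tendsto.add (Tendsto.add
      ((T p p).const_mul _) ((T w₀ w₀).const_mul _)) ?_) ?_) ((T p w₀).const_mul _)) ?_
    · refine Tendsto.div_const (Tendsto.add ?_ (Tendsto.const_mul _ ?_)) _
      · exact tendsto_finsetSum _ fun i _ => T _ _
      · exact tendsto_finsetSum _ fun j _ => tendsto_finsetSum _ fun i _ => T _ _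
    · exact Tendsto.const_mul _ (tendsto_finsetSum _ fun i _ => T _ _)
    · exact Tendsto.const_mul _ (tendsto_finsetSum _ fun i _ => T _ _)
  · intro N
    have : S.h₂ N = S.h₁ N := by rw [hS]
    rw [this]
    exact KN_psd (S.h₁ N) ι p w₀ w n t c'

end Pool.Agent.TH7.DH
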