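import Mathlib
import Pool.Agent.TH7.DH.Lim

set_option autoImplicit false

/-!
# The induction
-/

namespace Pool.Agent.TH7.DH

open Finset Filter Topology

variable {d : ℕ}

/-- the cell `c` uses every label `< k` -/
def Hit {ι : Type} (k : ℕ) (ℓ : ι → ℕ) (c : Fin d → ι) : Prop := ∀ i < k, ∃ t, ℓ (c t) = i

/-- the kernel between the pattern of the cells not using all labels `< k` and the full pattern -/
noncomputable def Sys.Φ (S : Sys d) (k : ℕ) (ι : Type) [Fintype ι] (ℓ : ι → ℕ) : ℝ :=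
  S.K ι (fun c => ¬ Hit k ℓ c) (fun _ => True)

/-- the function `κ` -/
noncomputable def Sys.κ (S : Sys d) (k : ℕ) (α : Type) [Fintype α] (ℓ : α → ℕ) (s : ℕ) : ℝ :=
  S.Φ k (α ⊕ Fin s) (Sum.elim ℓ (fun _ => k))

/-- the labels on `α ⊕ Fin a` -/
def lab {α : Type} (k : ℕ) (ℓ : α → ℕ) (a : ℕ) : α ⊕ Fin a → ℕ := Sum.elim ℓ (fun _ => k)

lemma Sys.κ_bdd (S : Sys d) (k : ℕ) (α : Type) [Fintype α] (ℓ : α → ℕ) : Bdd (S.κ k α ℓ) :=
  ⟨1, fun _ => S.K_abs _ _ _⟩

/-- the pattern `p` -/
def patP {α : Type} (k : ℕ) (ℓ : α → ℕ) (T : ℕ) (c : Fin d → α ⊕ Fin T) : Prop :=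
  ¬ Hit k (lab k ℓ T) c

/-- the pattern `W s` -/
def patW {α : Type} (k : ℕ) (ℓ : α → ℕ) (T s : ℕ) (c : Fin d → α ⊕ Fin T) : Prop :=
  ¬ (Hit k (lab k ℓ T) c ∧ ∃ t, ∃ z : Fin T, c t = Sum.inr z ∧ s ≤ z)

theorem Sys.lemA (S : Sys d) (k : ℕ) (α : Type) [Fintype α] (ℓ : α → ℕ) {s T : ℕ} (h : s ≤ T) :
    S.K (α ⊕ Fin T) (patP k ℓ T) (patW k ℓ T s) = S.κ k α ℓ s := by
  have hinj : Function.Injective (Sum.map id (Fin.castLE h) : α ⊕ Fin s → α ⊕ Fin T) :=
    Function.injective_id.sumMap (Fin.castLE_injective h)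
  rw [S.K_loc (ι' := α ⊕ Fin s) ⟨Sum.map id (Fin.castLE h), hinj⟩]
  · refine S.K_congr ?_ ?_
    · intro c
      simp only [patP, Hit, Function.Embedding.coeFn_mk]
      have hl : ∀ x : α ⊕ Fin s, lab k ℓ T (Sum.map id (Fin.castLE h) x)
          = Sum.elim ℓ (fun _ => k) x := by
        rintro (x | x) <;> rfl
      simp only [hl]
    · intro c
      simp only [patW, Function.Embedding.coeFn_mk, iff_true]
      rintro ⟨-, t, z, hz, hsz⟩
      rcases hct : c t with x | x
      · rw [hct] at hz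
        cases hz
      · rw [hct] at hz
        have h1 : Fin.castLE h x = z := Sum.inr_injective hz
        have h2 := congrArg Fin.val h1
        simp only [Fin.val_castLE] at h2
        have := x.2
        omega
  · rintro c ⟨t, ht⟩
    have h1 : ∃ t, ∃ z : Fin T, c t = Sum.inr z ∧ s ≤ z := by
      refine ⟨t, ?_⟩
      rcases hct : c t with x | x
      · exact (ht ⟨Sum.inl x, by rw [hct]; rfl⟩).elim
      · refine ⟨x, rfl, ?_⟩
        by_contra hlt
        push Not at hlt
        refine ht ⟨Sum.inr ⟨x, hlt⟩, ?_⟩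
        rw [hct]
        rfl
    simp only [patP, patW]
    rw [and_iff_left h1]

/-- the embedding used in Lemma B -/
def embB {α : Type} {s a T : ℕ} (h : s + a ≤ T) : (α ⊕ Fin a) ⊕ Fin s → α ⊕ Fin T
  | Sum.inl (Sum.inl x) => Sum.inl x
  | Sum.inl (Sum.inr z) => Sum.inr ⟨s + z, by omega⟩
  | Sum.inr z => Sum.inr ⟨z, by omega⟩

lemma embB_inj {α : Type} {s a T : ℕ} (h : s + a ≤ T) :
    Function.Injective (embB h : (α ⊕ Fin a) ⊕ Fin s → α ⊕ Fin T) := by
  rintro ((x | x) | x) ((y | y) | y) hxy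
  · simp only [embB, Sum.inl.injEq] at hxy
    rw [hxy]
  · simp [embB] at hxy
  · simp [embB] at hxy
  · simp [embB] at hxy
  · simp only [embB, Sum.inr.injEq, Fin.mk.injEq] at hxy
    have : x = y := Fin.ext (by omega)
    rw [this]
  · simp only [embB, Sum.inr.injEq, Fin.mk.injEq] at hxy
    have := y.2
    omega
  · simp [embB] at hxy
  · simp only [embB, Sum.inr.injEq, Fin.mk.injEq] at hxy
    have := x.2
    omega
  · simp only [embB, Sum.inr.injEq, Fin.mk.injEq] at hxy
    have : x = y := Fin.ext hxy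
    rw [this]

theorem Sys.lemB (S : Sys d) (k : ℕ) (α : Type) [Fintype α] (ℓ : α → ℕ) (hℓ : ∀ x, ℓ x < k)
    {s a T : ℕ} (h : s + a ≤ T) :
    S.K (α ⊕ Fin T) (patW k ℓ T s) (patW k ℓ T (s + a))
      = S.κ (k + 1) (α ⊕ Fin a) (lab k ℓ a) s := by
  rw [S.K_loc (ι' := (α ⊕ Fin a) ⊕ Fin s) ⟨embB h, embB_inj h⟩]
  · refine S.K_congr ?_ ?_
    · intro c
      simp only [patW, Function.Embedding.coeFn_mk]
      refine not_congr ?_
      constructor
      · rintro ⟨h1, t, z, hz, hsz⟩ i hi
        rcases Nat.lt_succ_iff_lt_or_eq.1 hi with hi | rfl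
        · obtain ⟨t, ht⟩ := h1 i hi
          refine ⟨t, ?_⟩
          change lab k ℓ T (embB h (c t)) = i at ht
          rcases hct : c t with (x | x) | x
          · rw [hct] at ht
            exact ht
          · rw [hct] at ht
            exact ht
          · rw [hct] at ht
            have : i = k := ht.symm
            omega
        · refine ⟨t, ?_⟩
          rcases hct : c t with (x | x) | x
          · rw [hct] at hz
            cases hz
          · rfl
          · rw [hct] at hz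
            have h2 : (⟨x, by omega⟩ : Fin T) = z := Sum.inr_injective hz
            have h3 := congrArg Fin.val h2
            simp only at h3
            have := x.2
            omega
      · intro h1
        constructor
        · intro i hi
          obtain ⟨t, ht⟩ := h1 i (by omega)
          refine ⟨t, ?_⟩
          change lab k ℓ T (embB h (c t)) = i
          rcases hct : c t with (x | x) | x
          · rw [hct] at ht
            exact ht
          · rw [hct] at ht
            exact ht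
          · rw [hct] at ht
            have : k + 1 = i := ht
            omega
        · obtain ⟨t, ht⟩ := h1 k (by omega)
          rcases hct : c t with (x | x) | x
          · rw [hct] at ht
            have h2 : ℓ x = k := ht
            have := hℓ x
            omega
          · refine ⟨t, ⟨s + x, by omega⟩, ?_, ?_⟩
            · rw [hct]
              rfl
            · simp
          · rw [hct] at ht
            have : k + 1 = k := ht
            omega
    · intro c
      simp only [patW, Function.Embedding.coeFn_mk, iff_true]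
      rintro ⟨-, t, z, hz, hsz⟩
      rcases hct : c t with (x | x) | x
      · rw [hct] at hz
        cases hz
      · rw [hct] at hz
        have h1 : (⟨s + x, by omega⟩ : Fin T) = z := Sum.inr_injective hz
        have h2 := congrArg Fin.val h1
        simp only at h2
        have := x.2
        omega
      · rw [hct] at hz
        have h1 : (⟨x, by omega⟩ : Fin T) = z := Sum.inr_injective hz
        have h2 := congrArg Fin.val h1
        simp only at h2
        have := x.2
        omega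
  · rintro c ⟨t, ht⟩
    have h1 : ∃ z : Fin T, c t = Sum.inr z ∧ s + a ≤ z := by
      rcases hct : c t with x | x
      · exact (ht ⟨Sum.inl (Sum.inl x), by rw [hct]; rfl⟩).elim
      · refine ⟨x, rfl, ?_⟩
        by_contra hlt
        push Not at hlt
        by_cases hs : (x : ℕ) < s
        · refine ht ⟨Sum.inr ⟨x, hs⟩, ?_⟩
          rw [hct]
          rfl
        · refine ht ⟨Sum.inl (Sum.inr ⟨x - s, by omega⟩), ?_⟩
          rw [hct]
          simp only [Function.Embedding.coeFn_mk, embB, Sum.inr.injEq]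
          apply Fin.ext
          simp only
          omega
    obtain ⟨z, hz, hsz⟩ := h1
    have h2 : ∃ t, ∃ z : Fin T, c t = Sum.inr z ∧ s ≤ z := ⟨t, z, hz, by omega⟩
    have h3 : ∃ t, ∃ z : Fin T, c t = Sum.inr z ∧ s + a ≤ z := ⟨t, z, hz, hsz⟩
    simp only [patW]
    rw [and_iff_left h2, and_iff_left h3]

theorem Sys.psd (S : Sys d) (hS : S.h₁ = S.h₂) (hd : 1 ≤ d) (k : ℕ) (α : Type) [Fintype α]
    (ℓ : α → ℕ) (hℓ : ∀ x, ℓ x < k) :
    PSD (S.κ k α ℓ) (fun a s => S.κ (k + 1) (α ⊕ Fin a) (lab k ℓ a) s) S.v := by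
  intro n r hr y t c'
  set T := y + r n with hT
  have hle : ∀ i ∈ range (n + 1), y + r i ≤ T := by
    intro i hi
    have hi' : i ≤ n := by
      have := mem_range.1 hi
      omega
    rcases Nat.lt_or_eq_of_le hi' with h1 | h1
    · have := hr i n h1 le_rfl
      omega
    · rw [h1]
  have h0 := S.K_psd hS (α ⊕ Fin T) (patP k ℓ T) (patW k ℓ T 0)
    (fun i => patW k ℓ T (y + r i)) n t c'
  rw [S.K_same _ hd _ _ fun _ => Iff.rfl, S.K_same _ hd _ _ fun _ => Iff.rfl] at h0
  have e1 : ∑ i ∈ range (n + 1), S.K (α ⊕ Fin T) (patW k ℓ T (y + r i)) (patW k ℓ T (y + r i))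
      = (n + 1) * S.v := by
    rw [sum_congr rfl fun i _ => S.K_same _ hd _ _ fun _ => Iff.rfl]
    simp
  have e2 : ∑ j ∈ range (n + 1), ∑ i ∈ range j,
      S.K (α ⊕ Fin T) (patW k ℓ T (y + r i)) (patW k ℓ T (y + r j))
      = ∑ j ∈ range (n + 1), ∑ i ∈ range j,
        S.κ (k + 1) (α ⊕ Fin (r j - r i)) (lab k ℓ (r j - r i)) (y + r i) := by
    refine sum_congr rfl fun j hj => sum_congr rfl fun i hi => ?_
    have hj' : j ≤ n := by
      have := mem_range.1 hj
      omega
    have hij := hr i j (mem_range.1 hi) hj'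
    have h1 : y + r j = y + r i + (r j - r i) := by omega
    have h2 := hle j hj
    rw [h1] at h2
    rw [← S.lemB k α ℓ hℓ h2]
    rw [← h1]
  have e3 : ∑ i ∈ range (n + 1), S.K (α ⊕ Fin T) (patW k ℓ T 0) (patW k ℓ T (y + r i))
      = ∑ i ∈ range (n + 1), S.κ (k + 1) (α ⊕ Fin (y + r i)) (lab k ℓ (y + r i)) 0 := by
    refine sum_congr rfl fun i hi => ?_
    have h1 : 0 + (y + r i) ≤ T := by
      have := hle i hi
      omega
    rw [← S.lemB k α ℓ hℓ h1, Nat.zero_add]
  have e4 : ∑ i ∈ range (n + 1), S.K (α ⊕ Fin T) (patP k ℓ T) (patW k ℓ T (y + r i))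
      = ∑ i ∈ range (n + 1), S.κ k α ℓ (y + r i) :=
    sum_congr rfl fun i hi => S.lemA k α ℓ (hle i hi)
  rw [e1, e2, e3, e4, S.lemA k α ℓ (Nat.zero_le T)] at h0
  exact h0

lemma Sys.v_nonneg (S : Sys d) (hS : S.h₁ = S.h₂) : 0 ≤ S.v := by
  refine ge_of_tendsto' (S.tendsto Empty (fun _ => True) (fun _ => True)) fun N => ?_
  rw [← hS]
  exact av_nonneg fun φ => av_nonneg fun A => mul_self_nonneg _

/-- base case: nothing depends on the number of indices with label `d` -/
theorem Sys.κ_top (S : Sys d) (α : Type) [Fintype α] (ℓ : α → ℕ) (s : ℕ) :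
    S.κ d α ℓ s = S.κ d α ℓ 0 := by
  have h : (0 : ℕ) ≤ s := Nat.zero_le s
  have hinj : Function.Injective (Sum.map id (Fin.castLE h) : α ⊕ Fin 0 → α ⊕ Fin s) :=
    Function.injective_id.sumMap (Fin.castLE_injective h)
  unfold Sys.κ Sys.Φ
  rw [S.K_loc (ι' := α ⊕ Fin 0) ⟨Sum.map id (Fin.castLE h), hinj⟩]
  · refine S.K_congr ?_ fun _ => Iff.rfl
    intro c
    simp only [Hit, Function.Embedding.coeFn_mk]
    have hl : ∀ x : α ⊕ Fin 0, (Sum.elim ℓ (fun _ => d) : α ⊕ Fin s → ℕ)
        (Sum.map id (Fin.castLE h) x) = Sum.elim ℓ (fun _ => d) x := by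
      rintro (x | x) <;> rfl
    simp only [hl]
  · rintro c ⟨t, ht⟩
    simp only [iff_true]
    intro hit
    have hct : ∃ z, c t = Sum.inr z := by
      rcases hct : c t with x | x
      · exact (ht ⟨Sum.inl x, by rw [hct]; rfl⟩).elim
      · exact ⟨x, rfl⟩
    obtain ⟨z, hz⟩ := hct
    have h1 : ∀ i : Fin d, ∃ t, (Sum.elim ℓ (fun _ => d) : α ⊕ Fin s → ℕ) (c t) = i :=
      fun i => hit i i.2
    choose f hf using h1
    have hfi : Function.Injective f := by
      intro i j hij
      have h2 := hf i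
      have h3 := hf j
      rw [hij, h3] at h2
      exact Fin.ext h2.symm
    obtain ⟨i, hi⟩ := (Finite.injective_iff_surjective.1 hfi) t
    have h2 := hf i
    rw [hi, hz] at h2
    have h3 : d = i := h2
    have := i.2
    omega

theorem Sys.main (S : Sys d) (hS : S.h₁ = S.h₂) (hd : 1 ≤ d) (j : ℕ) : j ≤ d →
    ∀ (α : Type) [Fintype α] (ℓ : α → ℕ), (∀ x, ℓ x < d - j) →
    |mean (S.κ (d - j) α ℓ) - (1 / 2) ^ j * S.κ (d - j) α ℓ 0| ≤ (1 - (1 / 2) ^ j) * S.v := by
  induction j with
  | zero =>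
    intro _ α _ ℓ _
    have h1 : S.κ (d - 0) α ℓ = fun _ => S.κ (d - 0) α ℓ 0 := by
      funext s
      exact S.κ_top α ℓ s
    rw [h1, mean_const]
    simp
  | succ j ih =>
    intro hj α _ ℓ hℓ
    have hk : d - j = d - (j + 1) + 1 := by omega
    have h1 : (0 : ℝ) ≤ (1 / 2) ^ j := by positivity
    have h2 : ((1 : ℝ) / 2) ^ j ≤ 1 := pow_le_one₀ (by norm_num) (by norm_num)
    have h3 := abs_step (κ := S.κ (d - (j + 1)) α ℓ)
      (G := fun a s => S.κ (d - (j + 1) + 1) (α ⊕ Fin a) (lab (d - (j + 1)) ℓ a) s)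
      (v := S.v) (c := (1 / 2) ^ j) (S.v_nonneg hS) h1 h2 (S.κ_bdd _ _ _)
      (fun a => S.κ_bdd _ _ _) ⟨1, fun _ => S.K_abs _ _ _⟩ (S.psd hS hd _ α ℓ hℓ) ?_
    · rw [pow_succ]
      have e : ((1 : ℝ) / 2) ^ j * (1 / 2) = (1 / 2) ^ j / 2 := by ring
      rw [e]
      exact h3
    · intro a _
      have h4 := ih (by omega) (α ⊕ Fin a) (lab (d - (j + 1)) ℓ a) ?_
      · rw [hk] at h4
        have h5 := (abs_le.1 h4).2
        linarith
      · rintro (x | x)
        · have := hℓ x
          change ℓ x < _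
          omega
        · change d - (j + 1) < _
          omega

end Pool.Agent.TH7.DH
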