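import Mathlib
import Pool.Agent.TH7.DH.Ind

set_option autoImplicit false

/-!
# Consequence for families without a forbidden pair
-/

namespace Pool.Agent.TH7.DH

open Finset Filter Topology

variable {d : ℕ}

lemma av_const {X : Type} [Fintype X] [Nonempty X] (x : ℝ) : av (fun _ : X => x) = x := by
  unfold av
  rw [sum_const, card_univ, nsmul_eq_mul]
  have : (0 : ℝ) < Fintype.card X := by exact_mod_cast Fintype.card_pos
  field_simp

lemma ow_empty {N : ℕ} {ι : Type} [IsEmpty ι] (hd : 1 ≤ d) (φ : ι ↪ Fin N)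
    (P : (Fin d → ι) → Prop) (A : Finset (Fin d → Fin N)) : ow φ P A = A := by
  ext c
  rw [mem_ow]
  have h1 : ∀ e : Fin d → ι, False := fun e => isEmptyElim (e ⟨0, hd⟩)
  constructor
  · rintro (⟨e, -⟩ | ⟨-, h⟩)
    · exact (h1 e).elim
    · exact h
  · intro h
    exact Or.inr ⟨fun ⟨e, _⟩ => h1 e, h⟩

open Classical in
/-- the indicator function of a family -/
noncomputable def ind {X : Type} (S : Finset X) (A : X) : ℝ := if A ∈ S then 1 else 0

lemma ind_nonneg {X : Type} (S : Finset X) (A : X) : 0 ≤ ind S A := by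
  unfold ind; split_ifs <;> norm_num

lemma ind_le {X : Type} (S : Finset X) (A : X) : ind S A ≤ 1 := by
  unfold ind; split_ifs <;> norm_num

lemma ind_abs {X : Type} (S : Finset X) (A : X) : |ind S A| ≤ 1 := by
  rw [abs_of_nonneg (ind_nonneg S A)]; exact ind_le S A

lemma ind_mul_self {X : Type} (S : Finset X) (A : X) : ind S A * ind S A = ind S A := by
  unfold ind; split_ifs <;> norm_num

lemma av_ind {X : Type} [Fintype X] (S : Finset X) :
    av (fun A => ind S A) = S.card / Fintype.card X := by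
  classical
  unfold av ind
  congr 1
  rw [sum_boole]
  congr 2
  ext x
  simp

/-- If in `S N` no two members are `A` and `A` with the cells of a planted nonempty grid filled in,
for every `N`, then the limit of the densities is at most `(2^(d-1) - 1)/(2^d - 1)`. -/
theorem limit_le (hd : 1 ≤ d) (V : Ultrafilter ℕ) (hV : (V : Filter ℕ) ≤ atTop)
    (S : (N : ℕ) → Finset (Finset (Fin d → Fin N)))
    (hgood : ∀ (N s : ℕ) (φ : Empty ⊕ Fin (s + 1) ↪ Fin N) (A : Finset (Fin d → Fin N)),
      ¬ (ow φ (fun _ => False) A ∈ S N ∧ ow φ (fun _ => True) A ∈ S N))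
    (D : ℝ) (hD0 : 0 < D) (hD1 : D ≤ 1)
    (hD : Tendsto (fun N => av (fun A => ind (S N) A)) V (𝓝 D)) :
    D ≤ ((2 : ℝ) ^ (d - 1) - 1) / (2 ^ d - 1) := by
  classical
  have hlarge : ∀ n : ℕ, ∀ᶠ N in (V : Filter ℕ), n ≤ N := fun n => hV (eventually_ge_atTop n)
  -- the systems
  let Sf1 : Sys d := ⟨V, hV, fun N A => ind (S N) A, fun _ _ => 1, fun _ _ => ind_abs _ _,
    fun _ _ => by simp⟩
  let h : (N : ℕ) → Finset (Fin d → Fin N) → ℝ := fun N A => ind (S N) A - D
  have hh : ∀ N A, |h N A| ≤ 1 := by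
    intro N A
    have h1 := ind_nonneg (S N) A
    have h2 := ind_le (S N) A
    rw [abs_le]
    constructor
    · change -1 ≤ ind (S N) A - D
      linarith
    · change ind (S N) A - D ≤ 1
      linarith
  let Sh : Sys d := ⟨V, hV, h, h, hh, hh⟩
  -- the density of planted sets
  have hav : ∀ (ι : Type) [Fintype ι] (P : (Fin d → ι) → Prop),
      Tendsto (fun N => av (fun φ : ι ↪ Fin N => av (fun A => ind (S N) (ow φ P A)))) V (𝓝 D) := by
    intro ι _ P
    have h1 := Sf1.tendsto ι P P
    have h2 : Sf1.K ι P P = D := by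
      rw [Sf1.K_same ι hd P P fun _ => Iff.rfl]
      refine tendsto_nhds_unique (Sf1.tendsto Empty (fun _ => True) (fun _ => True)) ?_
      refine hD.congr fun N => ?_
      unfold KN
      have h3 : ∀ φ : Empty ↪ Fin N, av (fun A => Sf1.h₁ N (ow φ (fun _ => True) A)
          * Sf1.h₂ N (ow φ (fun _ => True) A)) = av (fun A => ind (S N) A) := by
        intro φ
        congr 1
        funext A
        rw [ow_empty hd]
        change ind (S N) A * 1 = _
        rw [mul_one]
      simp only [h3]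
      have : Nonempty (Empty ↪ Fin N) := ⟨⟨Empty.elim, fun x => x.elim⟩⟩
      rw [av_const]
    rw [h2] at h1
    refine h1.congr fun N => ?_
    unfold KN
    congr 1
    funext φ
    congr 1
    funext A
    change ind (S N) _ * 1 = _
    rw [mul_one]
  -- expansion
  have hexp : ∀ (ι : Type) [Fintype ι] (P Q : (Fin d → ι) → Prop) (c : ℝ),
      Tendsto (fun N => av (fun φ : ι ↪ Fin N => av (fun A => ind (S N) (ow φ P A)
        * ind (S N) (ow φ Q A)))) V (𝓝 c) → Sh.K ι P Q = c - D ^ 2 := by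
    intro ι _ P Q c hc
    refine tendsto_nhds_unique (Sh.tendsto ι P Q) ?_
    have h1 : Tendsto (fun N => av (fun φ : ι ↪ Fin N => av (fun A => ind (S N) (ow φ P A)
        * ind (S N) (ow φ Q A))) + ((-D) * av (fun φ : ι ↪ Fin N =>
          av (fun A => ind (S N) (ow φ P A))) + ((-D) * av (fun φ : ι ↪ Fin N =>
          av (fun A => ind (S N) (ow φ Q A))) + D ^ 2))) V
        (𝓝 (c + ((-D) * D + ((-D) * D + D ^ 2)))) :=
      hc.add (((hav ι P).const_mul _).add (((hav ι Q).const_mul _).add tendsto_const_nhds))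
    have e : c + ((-D) * D + ((-D) * D + D ^ 2)) = c - D ^ 2 := by ring
    rw [e] at h1
    refine h1.congr' ?_
    filter_upwards [hlarge (Fintype.card ι)] with N hN
    have : Nonempty (ι ↪ Fin N) := by
      refine Function.Embedding.nonempty_of_card_le ?_
      rwa [Fintype.card_fin]
    unfold KN
    have e1 : ∀ (φ : ι ↪ Fin N) (A : Finset (Fin d → Fin N)),
        Sh.h₁ N (ow φ P A) * Sh.h₂ N (ow φ Q A)
        = ind (S N) (ow φ P A) * ind (S N) (ow φ Q A) + ((-D) * ind (S N) (ow φ P A)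
          + ((-D) * ind (S N) (ow φ Q A) + D ^ 2)) := by
      intro φ A
      change (ind (S N) (ow φ P A) - D) * (ind (S N) (ow φ Q A) - D) = _
      ring
    simp only [e1, av_add, av_smul, av_const]
  -- the diagonal value
  have hv : Sh.v = D - D ^ 2 := by
    refine hexp Empty _ _ D ?_
    refine (hav Empty (fun _ => True)).congr fun N => ?_
    simp only [ind_mul_self]
  -- values of `κ`
  have hκ0 : Sh.κ 0 Empty (fun _ => 0) 0 = Sh.v := by
    refine Sh.K_same _ hd _ _ fun c => ?_
    have : IsEmpty (Empty ⊕ Fin 0) := by infer_instance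
    exact isEmptyElim (c ⟨0, hd⟩)
  have hκ : ∀ s, Sh.κ 0 Empty (fun _ => 0) (s + 1) = - D ^ 2 := by
    intro s
    have h1 : Sh.κ 0 Empty (fun _ => 0) (s + 1)
        = Sh.K (Empty ⊕ Fin (s + 1)) (fun _ => False) (fun _ => True) := by
      refine Sh.K_congr (fun c => ?_) fun _ => Iff.rfl
      simp [Hit]
    rw [h1, hexp _ _ _ 0 ?_]
    · ring
    · refine tendsto_const_nhds.congr fun N => ?_
      have e2 : ∀ (φ : Empty ⊕ Fin (s + 1) ↪ Fin N) (A : Finset (Fin d → Fin N)),
          ind (S N) (ow φ (fun _ => False) A) * ind (S N) (ow φ (fun _ => True) A) = 0 := by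
        intro φ A
        have := hgood N s φ A
        unfold ind
        split_ifs with h1 h2
        · exact (this ⟨h1, h2⟩).elim
        · simp
        · simp
        · simp
      simp only [e2]
      simp [av]
  have hmean : mean (Sh.κ 0 Empty (fun _ => 0)) = - D ^ 2 := by
    rw [← mean_shift 1 (Sh.κ_bdd 0 Empty (fun _ => 0))]
    simp only [hκ]
    exact mean_const _
  have hmain := Sh.main rfl hd d le_rfl Empty (fun _ => 0) (fun x => x.elim)
  rw [Nat.sub_self, hmean, hκ0, hv] at hmain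
  have h1 := (abs_le.1 hmain).1
  -- arithmetic
  obtain ⟨e, rfl⟩ : ∃ e, d = e + 1 := ⟨d - 1, by omega⟩
  have h2 : (0 : ℝ) < 2 ^ e := by positivity
  have h3 : (1 : ℝ) ≤ 2 ^ e := one_le_pow₀ (by norm_num)
  have h4 : ((1 : ℝ) / 2) ^ (e + 1) = 1 / (2 * 2 ^ e) := by
    rw [div_pow, one_pow, pow_succ, mul_comm]
  rw [h4] at h1
  rw [Nat.add_sub_cancel, pow_succ]
  set x : ℝ := 2 ^ e with hx
  have h5 : 0 < x * 2 - 1 := by linarith
  rw [le_div_iff₀ h5]
  have h6 : 0 ≤ (D - D ^ 2) * (1 - 2 * (1 / (2 * x))) - D ^ 2 := by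
    nlinarith
  have h7 : (1 : ℝ) - 2 * (1 / (2 * x)) = (x - 1) / x := by
    field_simp
  rw [h7] at h6
  have h8 : 0 ≤ D * ((1 - D) * (x - 1) - D * x) := by
    have h9 : D * ((1 - D) * (x - 1) - D * x) = x * ((D - D ^ 2) * ((x - 1) / x) - D ^ 2) := by
      field_simp
    rw [h9]
    exact mul_nonneg h2.le h6
  have h10 : 0 ≤ (1 - D) * (x - 1) - D * x := by
    by_contra hcon
    push Not at hcon
    have := mul_neg_of_pos_of_neg hD0 hcon
    linarith
  linarith

end Pool.Agent.TH7.DH
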